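import Pool.Agent.KS6_33.SP.GA
import Pool.Graph.R_seed8.W171.LG.Close

/-! # The local events of Lenstra's problem -/

set_option autoImplicit false

namespace Pool.Agent.KS6_33.LE

open Finset Pool.Agent.R459.Eq Pool.Agent.H730R2.AA Pool.Agent.R318.PR Pool.Agent.KS6_33.EX
  Pool.Agent.KS6_33.SP
open Pool.Agent.H730R2.AA.Exp (fc fc_inv fc_ker_sum card_G N_ne)
open Pool.Agent.H981R3.LN (ql Sk mem_Sk Sk_dvd Sk_prime incl_excl prod_expand prod_dvd_iff)
open Pool.Agent.W171.LG (gT gT_bounds)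

lemma ev_of_fc (p : ℕ) [Fact p.Prime] (f : ℤ → ℝ) (g : (ZMod p)ˣ → ℂ) (μ : ℝ)
    (hmem : ∀ n, 0 ≤ f n ∧ f n ≤ 1) (hper : Per p f) (h0 : 0 ≤ μ) (h2 : μ ≤ 2)
    (hg : ∀ (n : ℤ) (u : (ZMod p)ˣ), (u : ZMod p) = ((n : ℤ) : ZMod p) → (f n : ℂ) = g u)
    (hs : ∑ χ : DirichletCharacter ℂ p, ‖fc g χ‖ ≤ ((p - 1).divisors.card : ℝ))
    (h1 : fc g 1 = (μ : ℂ)) : Ev p f μ := by
  classical
  refine ⟨hmem, hper, h0, h2, fun χ => fc g χ, ?_, ?_⟩
  · refine le_trans ?_ hs
    apply sum_le_sum_of_subset_of_nonneg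
    · intro χ _
      exact mem_univ _
    · intro χ _ _
      exact norm_nonneg _
  · intro n hn
    have hu : IsUnit ((n : ℤ) : ZMod p) := by
      rw [isUnit_iff_ne_zero, Ne, ZMod.intCast_zmod_eq_zero_iff_dvd]
      exact hn
    obtain ⟨a, ha⟩ := hu
    have h3 := fc_inv g a
    rw [← add_sum_erase univ _ (mem_univ (1 : DirichletCharacter ℂ p)), h1,
      MulChar.one_apply_coe, mul_one] at h3
    have h4 : (univ : Finset (DirichletCharacter ℂ p)).erase 1 = NT p := by
      unfold NT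
      ext χ
      simp
    rw [h4] at h3
    rw [← ha, h3]
    exact hg n a ha

section
variable {p : ℕ} [Fact p.Prime]

/-- the trivial coefficient of the kernel -/
lemma fc_ker_one (Q : ℕ) (hQ : Q ∣ p - 1) :
    fc (Exp.ker1 ((p - 1) / Q)) (1 : DirichletCharacter ℂ p) = ((1 / (Q : ℝ) : ℝ) : ℂ) := by
  classical
  have hN : 0 < p - 1 := Nat.sub_pos_of_lt (Fact.out (p := p.Prime)).one_lt
  have hQ0 : 0 < Q := Nat.pos_of_dvd_of_pos hQ hN
  obtain ⟨e, he⟩ := hQ
  have he1 : (p - 1) / Q = e := by rw [he, Nat.mul_div_cancel_left _ hQ0]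
  have he0 : 0 < e := by
    rcases Nat.eq_zero_or_pos e with h | h
    · rw [h, mul_zero] at he; omega
    · exact h
  rw [he1]
  unfold fc
  have h1 : ∑ u : (ZMod p)ˣ, Exp.ker1 e u * (1 : DirichletCharacter ℂ p) ((u⁻¹ : (ZMod p)ˣ) : ZMod p)
      = ((univ.filter (fun u : (ZMod p)ˣ => u ^ e = 1)).card : ℂ) := by
    rw [card_filter, Nat.cast_sum]
    refine sum_congr rfl fun u _ => ?_
    rw [MulChar.one_apply_coe, mul_one]
    unfold Exp.ker1
    split_ifs <;> simp
  have hcard : Nat.card (ZMod p)ˣ = p - 1 := by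
    rw [Nat.card_eq_fintype_card]
    exact card_G
  have h2 : (univ.filter (fun u : (ZMod p)ˣ => u ^ e = 1)).card = e := by
    have h3 := IsCyclic.card_powMonoidHom_ker (ZMod p)ˣ e
    rw [hcard, he, Nat.gcd_mul_left_left] at h3
    have h4 : Nat.card (powMonoidHom e : (ZMod p)ˣ →* (ZMod p)ˣ).ker =
        (univ.filter (fun u : (ZMod p)ˣ => u ^ e = 1)).card := by
      rw [Nat.card_eq_fintype_card, Fintype.card_subtype]
      congr 1
      ext u
      simp [MonoidHom.mem_ker]
    rw [← h4, h3]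
  rw [h1, h2, he]
  push_cast
  have hQc : (Q : ℂ) ≠ 0 := by exact_mod_cast hQ0.ne'
  have hec : (e : ℂ) ≠ 0 := by exact_mod_cast he0.ne'
  field_simp

/-- twisting -/
lemma fc_twist (g : (ZMod p)ˣ → ℂ) (t : (ZMod p)ˣ) (χ : DirichletCharacter ℂ p) :
    fc (fun u => g (t * u)) χ = fc g χ * χ (t : ZMod p) := by
  unfold fc
  rw [mul_assoc, sum_mul]
  congr 1
  refine Fintype.sum_equiv (Equiv.mulLeft t) _ _ fun u => ?_
  simp only [Equiv.coe_mulLeft]
  rw [mul_assoc]
  congr 1
  rw [← map_mul, ← Units.val_mul]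
  congr 2
  rw [mul_inv_rev, mul_assoc, inv_mul_cancel, mul_one]

lemma fc_sum {ι : Type*} (s : Finset ι) (c : ι → ℂ) (g : ι → (ZMod p)ˣ → ℂ) (χ : DirichletCharacter ℂ p) :
    fc (fun u => ∑ i ∈ s, c i * g i u) χ = ∑ i ∈ s, c i * fc (g i) χ := by
  unfold fc
  simp only [sum_mul, mul_sum]
  rw [sum_comm]
  refine sum_congr rfl fun d _ => sum_congr rfl fun u _ => ?_
  ring

lemma fc_const (c : ℂ) (χ : DirichletCharacter ℂ p) : fc (fun _ => c) χ = if χ = 1 then c else 0 := by
  classical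
  unfold fc
  rw [← mul_sum]
  have h : ∑ u : (ZMod p)ˣ, χ ((u⁻¹ : (ZMod p)ˣ) : ZMod p) = if χ = 1 then ((p - 1 : ℕ) : ℂ) else 0 := by
    by_cases hχ : χ = 1
    · rw [if_pos hχ, hχ]
      simp only [MulChar.one_apply_coe, sum_const, card_univ, card_G, nsmul_eq_mul, mul_one]
    · rw [if_neg hχ]
      have h2 : ∃ v : (ZMod p)ˣ, χ (v : ZMod p) ≠ 1 := by
        by_contra hcon
        push Not at hcon
        apply hχ
        ext v
        rw [hcon v, MulChar.one_apply_coe]
      obtain ⟨v, hv⟩ := h2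
      have h3 : χ (v : ZMod p) * ∑ u : (ZMod p)ˣ, χ ((u⁻¹ : (ZMod p)ˣ) : ZMod p) =
          ∑ u : (ZMod p)ˣ, χ ((u⁻¹ : (ZMod p)ˣ) : ZMod p) := by
        rw [mul_sum]
        refine Fintype.sum_equiv (Equiv.mulRight v⁻¹) _ _ fun u => ?_
        simp only [Equiv.coe_mulRight]
        rw [← map_mul, ← Units.val_mul]
        congr 2
      have h4 : (χ (v : ZMod p) - 1) * ∑ u : (ZMod p)ˣ, χ ((u⁻¹ : (ZMod p)ˣ) : ZMod p) = 0 := by
        rw [sub_mul, h3, one_mul, sub_self]
      exact (mul_eq_zero.1 h4).resolve_left (sub_ne_zero.2 hv)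
  rw [h]
  split_ifs with h1
  · rw [mul_comm c, ← mul_assoc, inv_mul_cancel₀ N_ne, one_mul]
  · rw [mul_zero, mul_zero]

open Classical in
/-- the event of Lenstra's problem -/
noncomputable def fL (k : ℕ) (G : Prop) (T : Finset ℕ) (p : ℕ) (n : ℤ) : ℝ :=
  if G ∧ (n : ZMod p) ≠ 0 ∧ ∀ l ∈ T, (n : ZMod p) ^ ((p - 1) / ql k l) ≠ 1 then 1 else 0

open Classical in
lemma ev_len (k : ℕ) (G : Prop) (T : Finset ℕ) (hT : T ⊆ Sk k (p - 1)) :
    Ev p (fL k G T p) (if G then gT k T else 0) := by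
  have hb := gT_bounds (p := p) hT
  have hN : 0 < p - 1 := Nat.sub_pos_of_lt (Fact.out (p := p.Prime)).one_lt
  by_cases hG : G
  swap
  · rw [if_neg hG]
    refine ev_of_fc p _ (fun _ => 0) 0 ?_ ?_ le_rfl (by norm_num) ?_ ?_ ?_
    · intro n
      unfold fL
      rw [if_neg (fun h => hG h.1)]
      norm_num
    · intro m n _
      unfold fL
      rw [if_neg (fun h => hG h.1), if_neg (fun h => hG h.1)]
    · intro n u _
      unfold fL
      rw [if_neg (fun h => hG h.1)]
      simp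
    · simp only [fc_const]
      simp
    · rw [fc_const]
      simp
  rw [if_pos hG]
  have hdvd : ∀ K ∈ T.powerset, ∏ l ∈ K, ql k l ∣ p - 1 := by
    intro K hK
    have hKP := (Finset.mem_powerset.mp hK).trans hT
    exact (prod_dvd_iff k _ K fun l hl => Sk_prime (hKP hl)).2 fun l hl => Sk_dvd (hKP hl)
  refine ev_of_fc p _ (fun u => ∑ K ∈ T.powerset, (-1 : ℂ) ^ #K *
    Exp.ker1 ((p - 1) / ∏ l ∈ K, ql k l) u) (gT k T) ?_ ?_ hb.1 (hb.2.trans (by norm_num)) ?_ ?_ ?_
  · intro n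
    unfold fL
    split_ifs <;> norm_num
  · intro m n h
    unfold fL
    have h1 : (n : ZMod p) = (m : ZMod p) := (ZMod.intCast_eq_intCast_iff_dvd_sub n m p).2 h
    rw [h1]
  · intro n u hu
    have hu0 : (n : ZMod p) ≠ 0 := by
      rw [← hu]
      exact u.ne_zero
    have h1 := incl_excl (p := p) ((n : ℤ) : ZMod p) hu0 T hT
    have h2 : fL k G T p n = if ∀ l ∈ T, (n : ZMod p) ^ ((p - 1) / ql k l) ≠ 1 then (1 : ℝ) else 0 := by
      unfold fL
      by_cases h : ∀ l ∈ T, (n : ZMod p) ^ ((p - 1) / ql k l) ≠ 1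
      · rw [if_pos ⟨hG, hu0, h⟩, if_pos h]
      · rw [if_neg (fun h' => h h'.2.2), if_neg h]
    rw [h2, h1]
    push_cast
    refine sum_congr rfl fun K _ => ?_
    congr 1
    unfold Exp.ker1
    rw [← hu]
    by_cases h3 : u ^ ((p - 1) / ∏ l ∈ K, ql k l) = 1
    · have h4 : (u : ZMod p) ^ ((p - 1) / ∏ l ∈ K, ql k l) = 1 := by
        rw [← Units.val_pow_eq_pow_val, h3, Units.val_one]
      rw [if_pos h3, if_pos h4]
      simp
    · have h4 : ¬ (u : ZMod p) ^ ((p - 1) / ∏ l ∈ K, ql k l) = 1 := by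
        intro h4
        apply h3
        apply Units.ext
        rw [Units.val_pow_eq_pow_val, h4, Units.val_one]
      rw [if_neg h3, if_neg h4]
      simp
  · simp only [fc_sum]
    calc ∑ χ : DirichletCharacter ℂ p, ‖∑ K ∈ T.powerset, (-1 : ℂ) ^ #K *
          fc (Exp.ker1 ((p - 1) / ∏ l ∈ K, ql k l)) χ‖
        ≤ ∑ χ : DirichletCharacter ℂ p, ∑ K ∈ T.powerset,
          ‖fc (Exp.ker1 ((p - 1) / ∏ l ∈ K, ql k l)) χ‖ := by
          refine sum_le_sum fun χ _ => (norm_sum_le _ _).trans (sum_le_sum fun K _ => ?_)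
          rw [norm_mul, norm_pow, norm_neg, norm_one, one_pow, one_mul]
      _ = ∑ K ∈ T.powerset, (1 : ℝ) := by
          rw [sum_comm]
          exact sum_congr rfl fun K _ => fc_ker_sum _
      _ = (T.powerset.card : ℝ) := by rw [sum_const, nsmul_eq_mul, mul_one]
      _ ≤ ((p - 1).divisors.card : ℝ) := by
          have h1 : T.powerset.card ≤ (p - 1).divisors.card := by
            apply card_le_card_of_injOn (fun K => ∏ l ∈ K, l)
            · intro K hK
              have hK' : K ∈ T.powerset := hK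
              have hKP := (Finset.mem_powerset.mp hK').trans hT
              refine mem_coe.2 (Nat.mem_divisors.2 ⟨?_, hN.ne'⟩)
              refine dvd_trans ?_ (hdvd K hK')
              apply prod_dvd_prod_of_dvd
              intro l _
              unfold ql
              exact dvd_pow_self l (Nat.succ_ne_zero _)
            · intro K hK K' hK' h
              have hK1 : K ∈ T.powerset := hK
              have hK1' : K' ∈ T.powerset := hK'
              have h1 : (∏ l ∈ K, l).primeFactors = K :=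
                Nat.primeFactors_prod fun l hl => Sk_prime (p := p) (hT (Finset.mem_powerset.mp hK1 hl))
              have h2 : (∏ l ∈ K', l).primeFactors = K' :=
                Nat.primeFactors_prod fun l hl => Sk_prime (p := p) (hT (Finset.mem_powerset.mp hK1' hl))
              rw [← h1, ← h2]
              exact congrArg Nat.primeFactors h
          exact_mod_cast h1
  · rw [fc_sum]
    unfold gT
    rw [prod_expand]
    push_cast
    refine sum_congr rfl fun K hK => ?_
    rw [fc_ker_one _ (hdvd K hK)]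
    push_cast
    ring

open Classical in
/-- the event of a class of powers -/
noncomputable def fC (l : ℕ) (G : Prop) (g : ℤ) (p : ℕ) (n : ℤ) : ℝ :=
  if G then (if (n : ZMod p) = 0 ∨ ((g : ZMod p) * (n : ZMod p)) ^ ((p - 1) / l) = 1 then 1 else 0) else 1

open Classical in
lemma ev_cls (l : ℕ) (G : Prop) (hl : G → l ∣ p - 1) (g : ℤ) (hg : ¬ (p : ℤ) ∣ g) :
    Ev p (fC l G g p) (if G then 1 / (l : ℝ) else 1) := by
  have hN : 0 < p - 1 := Nat.sub_pos_of_lt (Fact.out (p := p.Prime)).one_lt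
  have hτ : (1 : ℝ) ≤ ((p - 1).divisors.card : ℝ) := tau_one p Fact.out
  by_cases hG : G
  swap
  · rw [if_neg hG]
    refine ev_of_fc p _ (fun _ => 1) 1 ?_ ?_ (by norm_num) (by norm_num) ?_ ?_ ?_
    · intro n
      unfold fC
      rw [if_neg hG]
      norm_num
    · intro m n _
      unfold fC
      rw [if_neg hG, if_neg hG]
    · intro n u _
      unfold fC
      rw [if_neg hG]
      simp
    · refine le_trans (le_of_eq ?_) hτ
      rw [sum_eq_single (1 : DirichletCharacter ℂ p)]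
      · rw [fc_const, if_pos rfl, norm_one]
      · intro χ _ h
        rw [fc_const, if_neg h, norm_zero]
      · intro h
        exact absurd (mem_univ _) h
    · rw [fc_const, if_pos rfl]
      simp
  rw [if_pos hG]
  have hl' := hl hG
  have hl0 : 0 < l := Nat.pos_of_dvd_of_pos hl' hN
  have hgu : IsUnit ((g : ℤ) : ZMod p) := by
    rw [isUnit_iff_ne_zero, Ne, ZMod.intCast_zmod_eq_zero_iff_dvd]
    exact hg
  obtain ⟨t, ht⟩ := hgu
  have hl1 : (1 : ℝ) ≤ l := by exact_mod_cast hl0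
  have hl2 : 1 / (l : ℝ) ≤ 1 := by
    rw [div_le_one (by linarith)]
    exact hl1
  refine ev_of_fc p _ (fun u => Exp.ker1 ((p - 1) / l) (t * u)) (1 / (l : ℝ)) ?_ ?_ (by positivity)
    (by linarith) ?_ ?_ ?_
  · intro n
    unfold fC
    split_ifs <;> norm_num
  · intro m n h
    unfold fC
    have h1 : (n : ZMod p) = (m : ZMod p) := (ZMod.intCast_eq_intCast_iff_dvd_sub n m p).2 h
    rw [h1]
  · intro n u hu
    unfold fC Exp.ker1
    rw [if_pos hG, ← hu, ← ht]
    have hu0 : (u : ZMod p) ≠ 0 := u.ne_zero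
    by_cases h3 : (t * u) ^ ((p - 1) / l) = 1
    · rw [if_pos h3, if_pos]
      · simp
      · right
        rw [← Units.val_mul, ← Units.val_pow_eq_pow_val, h3, Units.val_one]
    · rw [if_neg h3, if_neg]
      · simp
      · rintro (h4 | h4)
        · exact hu0 h4
        · apply h3
          apply Units.ext
          rw [Units.val_pow_eq_pow_val, Units.val_mul, h4, Units.val_one]
  · refine le_trans (le_of_eq ?_) hτ
    rw [← fc_ker_sum (p := p) ((p - 1) / l)]
    refine sum_congr rfl fun χ _ => ?_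
    rw [fc_twist, norm_mul]
    have : ‖χ (t : ZMod p)‖ = 1 := DirichletCharacter.unit_norm_eq_one χ t
    rw [this, mul_one]
  · rw [fc_twist, MulChar.one_apply_coe, mul_one, fc_ker_one l hl']

end

end Pool.Agent.KS6_33.LE
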