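import Pool.Agent.KS6_33.LE.LA
import Pool.Graph.R_seed8.W171.LG.CoreR

/-! # The counting function of Lenstra's problem along families -/

set_option autoImplicit false

namespace Pool.Agent.KS6_33.LE

open Finset Filter Topology NumberField Pool.Agent.R459.Eq Pool.Agent.H730R2.AA Pool.Agent.R318.PR
  Pool.Agent.KS6_33.EX Pool.Agent.KS6_33.SP
open Pool.Agent.H981R3.LN (ql Sk mem_Sk Sk_dvd Sk_prime Qn Qn_dvd Qn_pos)
open Pool.Agent.W171.LG
open Pool.Agent.W401.Cheb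

/-- means over the primes prime to `M` -/
lemma avg_of (M : ℕ) (hM : M ≠ 0) (a : ℕ → ℝ) (h0 : ∀ p, 0 ≤ a p) (h1 : ∀ p, a p ≤ 2) (δ : ℝ)
    (h : Tendsto (Pool.Agent.W401.Cheb.M a) atTop (𝓝 δ)) :
    ∀ ε : ℝ, 0 < ε → ∃ X : ℕ, ∀ x : ℕ, X ≤ x →
      |∑ p ∈ GP M x, a p - δ * Nat.primeCounting x| ≤ ε * Nat.primeCounting x := by
  intro ε hε
  rw [Metric.tendsto_atTop] at h
  obtain ⟨X1, hX1⟩ := h (ε / 2) (by positivity)
  obtain ⟨X2, hX24, hX2⟩ := small_ev (2 * (M.primeFactors.card : ℝ)) (ε / 2) (by positivity)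
  refine ⟨max X1 X2, fun x hx => ?_⟩
  have hx1 := (le_max_left _ _).trans hx
  have hx2 := (le_max_right _ _).trans hx
  have hx4 : 4 ≤ x := by omega
  have hpos := (pi_lower' x hx4).1
  have h2 := hX1 x hx1
  rw [Real.dist_eq, M_eq] at h2
  have h3 : ∑ p ∈ Pool.Agent.H386R2.Artin.PP x, a p - δ * Nat.primeCounting x =
      ((∑ p ∈ Pool.Agent.H386R2.Artin.PP x, a p) / Nat.primeCounting x - δ) * Nat.primeCounting x := by
    field_simp
  have h4 : |∑ p ∈ Pool.Agent.H386R2.Artin.PP x, a p - δ * Nat.primeCounting x| ≤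
      ε / 2 * Nat.primeCounting x := by
    rw [h3, abs_mul, abs_of_pos hpos]
    gcongr
  have h6 := GP_sum M hM x (Pool.Agent.H386R2.Artin.PP x) a h0 h1 (by
      intro p hp
      rw [mem_GP] at hp
      unfold Pool.Agent.H386R2.Artin.PP
      rw [mem_filter, mem_range]
      exact ⟨by omega, hp.2.1⟩) (by
      intro p hp
      unfold Pool.Agent.H386R2.Artin.PP at hp
      rw [mem_filter, mem_range] at hp
      exact ⟨by omega, hp.2⟩)
  have h7 := hX2 x hx2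
  have h8 : 0 ≤ Real.log x := Real.log_nonneg (by exact_mod_cast (by omega : 1 ≤ x))
  have h9 := abs_sub_le (∑ p ∈ GP M x, a p) (∑ p ∈ Pool.Agent.H386R2.Artin.PP x, a p)
    (δ * Nat.primeCounting x)
  linarith

/-- the unit `n` -/
noncomputable def Uz (n : ℤ) : ℚˣ := if h : (n : ℚ) ≠ 0 then Units.mk0 (n : ℚ) h else 1

lemma Uz_val {n : ℤ} (hn : n ≠ 0) : ((Uz n : ℚˣ) : ℚ) = (n : ℚ) := by
  unfold Uz
  have h : (n : ℚ) ≠ 0 := by exact_mod_cast hn
  rw [dif_pos h, Units.val_mk0]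

section
variable {p : ℕ} [Fact p.Prime]

lemma un_int {n : ℤ} : Un p (n : ℚ) ↔ (n : ZMod p) ≠ 0 := by
  unfold Un
  rw [Rat.num_intCast, Rat.den_intCast]
  simp

lemma rd_int {n : ℤ} : rd p (n : ℚ) = (n : ZMod p) := by
  unfold rd
  rw [Rat.num_intCast, Rat.den_intCast]
  simp

end

section
variable (F : IntermediateField ℚ QA) [NumberField F] [IsGalois ℚ F] (C : Set Gal(F/ℚ))
  (W0 : Subgroup ℚˣ) (k : ℕ)

open Classical in
lemma LC_iffZ (hk : k ≠ 0) {p : ℕ} [Fact p.Prime] (hU : UnW W0 p) {n : ℤ} (hn : n ≠ 0) :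
    LC F C k (W0 ⊔ Subgroup.zpowers (Uz n)) p ↔
      (GF F C p ∧ (n : ZMod p) ≠ 0 ∧ ∀ l ∈ Tp W0 k ∅ p, (n : ZMod p) ^ ((p - 1) / ql k l) ≠ 1) := by
  have hT : ∀ l, l ∈ Tp W0 k ∅ p ↔ l ∈ Sk k (p - 1) ∧ PW W0 (ql k l) p := by
    intro l
    unfold Tp
    rw [mem_filter]
    simp
  unfold LC
  refine and_congr_right fun _ => ?_
  rw [← unW_iff, unW_sup, Uz_val hn, un_int]
  constructor
  · rintro ⟨⟨h1, h2⟩, h3⟩
    refine ⟨h2, fun l hl => ?_⟩
    rw [idx_iff (unW_sup.2 ⟨h1, by rw [Uz_val hn, un_int]; exact h2⟩) hk] at h3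
    rw [hT] at hl
    have h4 := h3 l hl.1
    rw [PW_sup h1 (by rw [Uz_val hn, un_int]; exact h2), Uz_val hn, rd_int] at h4
    exact fun h => h4 ⟨hl.2, h⟩
  · rintro ⟨h2, h3⟩
    refine ⟨⟨hU, h2⟩, ?_⟩
    rw [idx_iff (unW_sup.2 ⟨hU, by rw [Uz_val hn, un_int]; exact h2⟩) hk]
    intro l hl
    rw [PW_sup hU (by rw [Uz_val hn, un_int]; exact h2), Uz_val hn, rd_int]
    rintro ⟨h4, h5⟩
    exact h3 l ((hT l).2 ⟨hl, h4⟩) h5

open Classical in
/-- the counting function -/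
lemma Sc_cnt (hk : k ≠ 0) (M : ℕ) (hM : M ≠ 0) (hU : ∀ (p : ℕ) [Fact p.Prime], ¬ p ∣ M → UnW W0 p)
    {n : ℤ} (hn : n ≠ 0) (x : ℕ) :
    |(Sc F C (W0 ⊔ Subgroup.zpowers (Uz n)) k x : ℝ) -
      ∑ p ∈ GP M x, fL k (GF F C p) (Tp W0 k ∅ p) p n| ≤ (M.primeFactors.card : ℝ) := by
  have h1 : ∑ p ∈ GP M x, fL k (GF F C p) (Tp W0 k ∅ p) p n =
      (((GP M x).filter (fun p => LC F C k (W0 ⊔ Subgroup.zpowers (Uz n)) p)).card : ℝ) := by
    rw [card_filter]
    push_cast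
    apply sum_congr rfl
    intro p hp
    rw [mem_GP] at hp
    haveI : Fact p.Prime := ⟨hp.2.1⟩
    have h2 := LC_iffZ F C W0 k hk (hU p hp.2.2) hn
    unfold fL
    by_cases h : LC F C k (W0 ⊔ Subgroup.zpowers (Uz n)) p
    · rw [if_pos (h2.1 h), if_pos h]
    · rw [if_neg (fun h' => h (h2.2 h')), if_neg h]
  rw [h1, Sc_eq]
  have h2 : (GP M x).filter (fun p => LC F C k (W0 ⊔ Subgroup.zpowers (Uz n)) p) ⊆
      (range (x + 1)).filter (fun p : ℕ => p.Prime ∧ LC F C k (W0 ⊔ Subgroup.zpowers (Uz n)) p) := by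
    intro p hp
    rw [mem_filter, mem_GP] at hp
    rw [mem_filter, mem_range]
    exact ⟨by omega, hp.1.2.1, hp.2⟩
  have h3 : (range (x + 1)).filter (fun p : ℕ => p.Prime ∧ LC F C k (W0 ⊔ Subgroup.zpowers (Uz n)) p) ⊆
      (GP M x).filter (fun p => LC F C k (W0 ⊔ Subgroup.zpowers (Uz n)) p) ∪ M.primeFactors := by
    intro p hp
    rw [mem_filter, mem_range] at hp
    rw [mem_union, mem_filter, mem_GP, Nat.mem_primeFactors]
    by_cases h : p ∣ M
    · exact Or.inr ⟨hp.2.1, h, hM⟩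
    · exact Or.inl ⟨⟨by omega, hp.2.1, h⟩, hp.2.2⟩
  have h4 := card_le_card h2
  have h5 := (card_le_card h3).trans (card_union_le _ _)
  have h4' : (((GP M x).filter (fun p => LC F C k (W0 ⊔ Subgroup.zpowers (Uz n)) p)).card : ℝ) ≤
      (((range (x + 1)).filter (fun p : ℕ => p.Prime ∧
        LC F C k (W0 ⊔ Subgroup.zpowers (Uz n)) p)).card : ℝ) := by exact_mod_cast h4
  have h5' : (((range (x + 1)).filter (fun p : ℕ => p.Prime ∧
        LC F C k (W0 ⊔ Subgroup.zpowers (Uz n)) p)).card : ℝ) ≤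
      (((GP M x).filter (fun p => LC F C k (W0 ⊔ Subgroup.zpowers (Uz n)) p)).card : ℝ) +
        (M.primeFactors.card : ℝ) := by exact_mod_cast h5
  rw [abs_le]
  constructor
  · have : (0 : ℝ) ≤ (M.primeFactors.card : ℝ) := Nat.cast_nonneg _
    linarith
  · linarith

lemma Sc_mono (W : Subgroup ℚˣ) : Monotone (Sc F C W k) := by
  classical
  intro x y hxy
  rw [Sc_eq, Sc_eq]
  apply card_le_card
  intro p hp
  rw [mem_filter, mem_range] at hp ⊢
  exact ⟨by omega, hp.2⟩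

variable {M₀ : ℕ} {Adm : ℕ → ℕ → (ℕ → ℤ) → Prop} {R : ℕ → ℕ → Prop} {w : ℕ → ℝ}

/-- Lenstra's count along the families, compared with the mean of the local densities -/
theorem g_len (hM₀ : M₀ ≠ 0) (hall : AllH M₀ Adm R w)
    (hC : ∀ σ ∈ C, ∀ τ : Gal(F/ℚ), τ * σ * τ⁻¹ ∈ C) (hW0 : W0.FG) (hk : k ≠ 0) (ε : ℝ) (hε : 0 < ε) :
    FewG Adm R w (fun n x => n = 0 ∨ |(Sc F C (W0 ⊔ Subgroup.zpowers (Uz n)) k x : ℝ) -
      (∑' e : ℕ, aT F C W0 k e) * (Nat.primeCounting x : ℝ)| ≤ ε * (Nat.primeCounting x : ℝ)) := by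
  classical
  obtain ⟨E, hE, hU⟩ := exists_unW hW0
  obtain ⟨M, hMdef⟩ : ∃ M : ℕ, M = E * M₀ := ⟨_, rfl⟩
  have hM : M ≠ 0 := by rw [hMdef]; exact mul_ne_zero hE.ne' hM₀
  have hEM : E ∣ M := by rw [hMdef]; exact dvd_mul_right _ _
  have hM₀M : M₀ ∣ M := by rw [hMdef]; exact dvd_mul_left _ _
  have hUM : ∀ (p : ℕ) [Fact p.Prime], ¬ p ∣ M → UnW W0 p := fun p _ h => hU p (fun h' => h (h'.trans hEM))
  have hTp : ∀ p : ℕ, Tp W0 k ∅ p ⊆ Sk k (p - 1) := by
    intro p l hl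
    unfold Tp at hl
    rw [mem_filter] at hl
    exact hl.1
  have hlim := lim_len F C k hC hW0
  have hμ : ∀ p : ℕ, (if p.Prime ∧ GF F C p then gT k (Tp W0 k ∅ p) else 0 : ℝ) ≤ 1 ∧
      0 ≤ (if p.Prime ∧ GF F C p then gT k (Tp W0 k ∅ p) else 0 : ℝ) := by
    intro p
    split_ifs with h
    · haveI : Fact p.Prime := ⟨h.1⟩
      have := gT_bounds (p := p) (hTp p)
      exact ⟨this.2, this.1⟩
    · norm_num
  have hlim' : Tendsto (Pool.Agent.W401.Cheb.M (fun p => if p.Prime ∧ GF F C p then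
      gT k (Tp W0 k ∅ p) else 0)) atTop (𝓝 (∑' e : ℕ, aT F C W0 k e)) := by
    refine hlim.congr fun x => ?_
    rw [M_eq, M_eq]
    congr 1
    refine Finset.sum_congr rfl fun p hp => ?_
    have h1 : p.Prime := by
      unfold Pool.Agent.H386R2.Artin.PP at hp
      rw [mem_filter] at hp
      exact hp.2
    have h2 : gd F C ⊥ k ∅ p ↔ p.Prime ∧ GF F C p := by
      unfold gd
      simp [h1]
    by_cases h : gd F C ⊥ k ∅ p
    · rw [if_pos h, if_pos (h2.1 h)]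
    · rw [if_neg h, if_neg (fun h' => h (h2.2 h'))]
  obtain ⟨N, hN⟩ : ∃ N : ℤ → ℕ → ℕ, N = fun n x =>
      if n = 0 then 0 else Sc F C (W0 ⊔ Subgroup.zpowers (Uz n)) k x := ⟨_, rfl⟩
  have h := hall M hM hM₀M (fun p => fL k (GF F C p) (Tp W0 k ∅ p) p)
    (fun p => if p.Prime ∧ GF F C p then gT k (Tp W0 k ∅ p) else 0)
    (fun p hp hpM => by
      haveI : Fact p.Prime := ⟨hp⟩
      have h1 := ev_len (p := p) k (GF F C p) (Tp W0 k ∅ p) (hTp p)
      have h2 : (if p.Prime ∧ GF F C p then gT k (Tp W0 k ∅ p) else 0 : ℝ) =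
          if GF F C p then gT k (Tp W0 k ∅ p) else 0 := by
        simp [hp]
      beta_reduce
      rw [h2]
      exact h1)
    (∑' e : ℕ, aT F C W0 k e)
    (avg_of M hM _ (fun p => (hμ p).2) (fun p => (hμ p).1.trans (by norm_num)) _ hlim') N
    (fun n => by
      rw [hN]
      intro x y hxy
      beta_reduce
      split_ifs
      · exact le_rfl
      · exact Sc_mono F C k _ hxy) (M.primeFactors.card : ℝ)
    (fun n x => by
      rw [hN]
      beta_reduce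
      split_ifs with h0
      · have : ∑ p ∈ GP M x, fL k (GF F C p) (Tp W0 k ∅ p) p n = 0 := by
          apply sum_eq_zero
          intro p _
          unfold fL
          rw [if_neg]
          rintro ⟨-, h1, -⟩
          apply h1
          rw [h0]
          simp
        rw [this]
        simp
      · exact Sc_cnt F C W0 k hk M hM hUM h0 x) ε hε
  refine fewG_mono _ _ h ?_
  intro n x h1
  by_cases h0 : n = 0
  · exact Or.inl h0
  · right
    rw [hN] at h1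
    beta_reduce at h1
    rw [if_neg h0] at h1
    exact h1

end

end Pool.Agent.KS6_33.LE
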