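import Pool.Agent.KS6_33.LE.LB

/-! # Few members of the families are in a class of powers -/

set_option autoImplicit false

namespace Pool.Agent.KS6_33.LE

open Finset Filter Topology NumberField Pool.Agent.R459.Eq Pool.Agent.H730R2.AA Pool.Agent.R318.PR
  Pool.Agent.KS6_33.EX Pool.Agent.KS6_33.SP
open Pool.Agent.H981R3.LN (ql Sk mem_Sk Sk_dvd Sk_prime Qn Qn_dvd Qn_pos)
open Pool.Agent.W171.LG
open Pool.Agent.W401.Cheb

section
variable {M₀ : ℕ} {Adm : ℕ → ℕ → (ℕ → ℤ) → Prop} {R : ℕ → ℕ → Prop} {w : ℕ → ℝ}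

open Classical in
lemma cls_dens (F : IntermediateField ℚ QA) [NumberField F] [IsGalois ℚ F] (l : ℕ) (hl : 0 < l) : ∃ θ : ℝ, 0 < θ ∧ Tendsto (Pool.Agent.W401.Cheb.M
    (fun p => if p.Prime ∧ GF F Set.univ p ∧ l ∣ p - 1 then (1 : ℝ) else 0)) atTop (𝓝 θ) := by
  have hbot : (⊥ : Subgroup ℚˣ).FG := ⟨∅, by simp⟩
  have h := dens F Set.univ (fun _ _ _ => Set.mem_univ _) ⊥ ⊥ l l hbot hbot hl hl
  refine ⟨(cE F Set.univ (Lf QA ⊥ l ⊔ Lf QA ⊥ l) : ℝ) / (Module.finrank ℚ (Kf F ⊥ ⊥ l l) : ℝ), ?_, ?_⟩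
  rotate_left
  · refine h.congr fun x => ?_
    rw [M_eq, M_eq]
    congr 1
    refine Finset.sum_congr rfl fun p hp => ?_
    have h1 : p.Prime := by
      unfold Pool.Agent.H386R2.Artin.PP at hp
      rw [mem_filter] at hp
      exact hp.2
    haveI : Fact p.Prime := ⟨h1⟩
    have h2 : (GF F Set.univ p ∧ PW ⊥ l p ∧ PW ⊥ l p) ↔ (p.Prime ∧ GF F Set.univ p ∧ l ∣ p - 1) := by
      rw [PW_bot]
      tauto
    by_cases h3 : GF F Set.univ p ∧ PW ⊥ l p ∧ PW ⊥ l p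
    · rw [if_pos h3, if_pos (h2.1 h3)]
    · rw [if_neg h3, if_neg (fun h' => h3 (h2.2 h'))]
  · have hfin : FiniteDimensional ℚ (Kf F ⊥ ⊥ l l) := Kf_fin F hbot hbot hl hl
    have h1 : 0 < Module.finrank ℚ (Kf F ⊥ ⊥ l l) := Module.finrank_pos
    have h2 : 0 < cE F Set.univ (Lf QA ⊥ l ⊔ Lf QA ⊥ l) := by
      unfold cE
      have hne : Nonempty {σ : Gal(F/ℚ) // σ ∈ (Set.univ : Set Gal(F/ℚ)) ∧ ∀ y : F, (y : QA) ∈
          (Lf QA (⊥ : Subgroup ℚˣ) l ⊔ Lf QA (⊥ : Subgroup ℚˣ) l : IntermediateField ℚ QA) → σ y = y} :=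
        ⟨⟨1, Set.mem_univ _, fun y _ => rfl⟩⟩
      exact Nat.card_pos
    have h1' : (0 : ℝ) < (Module.finrank ℚ (Kf F ⊥ ⊥ l l) : ℝ) := by exact_mod_cast h1
    have h2' : (0 : ℝ) < (cE F Set.univ (Lf QA ⊥ l ⊔ Lf QA ⊥ l) : ℝ) := by exact_mod_cast h2
    exact div_pos h2' h1'

/-- few members are in a class of powers -/
theorem g_cls (F : IntermediateField ℚ QA) [NumberField F] [IsGalois ℚ F] (hM₀ : M₀ ≠ 0) (hall : AllH M₀ Adm R w) (l : ℕ) (hl : l.Prime) (g : ℤ) (hg : g ≠ 0) :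
    FewG Adm R w (fun n _ => ∀ y : ℤ, n ≠ g * y ^ l) := by
  classical
  have hgn : g.natAbs ≠ 0 := Int.natAbs_ne_zero.2 hg
  obtain ⟨M, hMdef⟩ : ∃ M : ℕ, M = g.natAbs * M₀ := ⟨_, rfl⟩
  have hM : M ≠ 0 := by rw [hMdef]; exact mul_ne_zero hgn hM₀
  have hgM : g.natAbs ∣ M := by rw [hMdef]; exact dvd_mul_right _ _
  have hM₀M : M₀ ∣ M := by rw [hMdef]; exact dvd_mul_left _ _
  obtain ⟨θ, hθ, hlim⟩ := cls_dens F l hl.pos
  have hl1 : (1 : ℝ) < l := by exact_mod_cast hl.one_lt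
  have hl0 : (0 : ℝ) < l := by linarith
  obtain ⟨c, hc⟩ : ∃ c : ℝ, c = 1 - 1 / (l : ℝ) := ⟨_, rfl⟩
  have hc0 : 0 < c := by
    rw [hc, sub_pos, div_lt_one hl0]
    exact hl1
  have hc1 : c ≤ 1 := by
    rw [hc]
    have : 0 ≤ 1 / (l : ℝ) := by positivity
    linarith
  have havgb := avg_of M hM (fun p => if p.Prime ∧ GF F Set.univ p ∧ l ∣ p - 1 then (1 : ℝ) else 0)
    (fun p => by split_ifs <;> norm_num) (fun p => by split_ifs <;> norm_num) θ hlim
  -- the mean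
  have havg : ∀ ε : ℝ, 0 < ε → ∃ X : ℕ, ∀ x : ℕ, X ≤ x →
      |∑ p ∈ GP M x, (if GF F Set.univ p ∧ l ∣ p - 1 then 1 / (l : ℝ) else 1) -
        (1 - c * θ) * Nat.primeCounting x| ≤ ε * Nat.primeCounting x := by
    intro ε hε
    obtain ⟨X1, hX1⟩ := havgb (ε / 2) (by positivity)
    obtain ⟨X2, hX24, hX2⟩ := small_ev (M.primeFactors.card : ℝ) (ε / 2) (by positivity)
    refine ⟨max X1 X2, fun x hx => ?_⟩
    have hx1 := (le_max_left _ _).trans hx
    have hx2 := (le_max_right _ _).trans hx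
    have h2 := hX1 x hx1
    have h3 := hX2 x hx2
    have h8 : 0 ≤ Real.log x := Real.log_nonneg (by exact_mod_cast (by omega : 1 ≤ x))
    have h4 := GP_card_le M x
    have h5 := GP_card_ge M hM x
    have e1 : ∑ p ∈ GP M x, (if GF F Set.univ p ∧ l ∣ p - 1 then 1 / (l : ℝ) else 1) =
        ((GP M x).card : ℝ) - c * ∑ p ∈ GP M x,
          (if p.Prime ∧ GF F Set.univ p ∧ l ∣ p - 1 then (1 : ℝ) else 0) := by
      rw [card_eq_sum_ones, mul_sum, Nat.cast_sum, ← sum_sub_distrib]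
      apply sum_congr rfl
      intro p hp
      rw [mem_GP] at hp
      by_cases h : GF F Set.univ p ∧ l ∣ p - 1
      · rw [if_pos h, if_pos ⟨hp.2.1, h⟩, hc]
        push_cast
        ring
      · rw [if_neg h, if_neg (fun h' => h h'.2)]
        push_cast
        ring
    rw [e1]
    have h6 : |c * (∑ p ∈ GP M x, (if p.Prime ∧ GF F Set.univ p ∧ l ∣ p - 1 then (1 : ℝ) else 0) -
        θ * Nat.primeCounting x)| ≤ ε / 2 * Nat.primeCounting x := by
      rw [abs_mul, abs_of_pos hc0]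
      calc _ ≤ 1 * _ := mul_le_mul_of_nonneg_right hc1 (abs_nonneg _)
        _ ≤ _ := by rw [one_mul]; exact h2
    rw [abs_le] at h6 ⊢
    have h7 : (0 : ℝ) ≤ (M.primeFactors.card : ℝ) := Nat.cast_nonneg _
    constructor
    · linarith [h6.1, h6.2]
    · linarith [h6.1, h6.2]
  obtain ⟨ff, hff⟩ : ∃ ff : ℕ → ℤ → ℝ, ff = fun p => fC l (GF F Set.univ p ∧ l ∣ p - 1) (g ^ (l - 1)) p := ⟨_, rfl⟩
  obtain ⟨N, hN⟩ : ∃ N : ℤ → ℕ → ℕ, N = fun n x => ((GP M x).filter (fun p => ff p n = 1)).card := ⟨_, rfl⟩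
  have hsum : ∀ n x, (N n x : ℝ) = ∑ p ∈ GP M x, ff p n := by
    intro n x
    rw [hN]
    dsimp only
    rw [card_filter]
    push_cast
    apply sum_congr rfl
    intro p _
    rw [hff]
    dsimp only
    unfold fC
    split_ifs <;> simp_all
  have h := hall M hM hM₀M ff (fun p => if GF F Set.univ p ∧ l ∣ p - 1 then 1 / (l : ℝ) else 1)
    (fun p hp hpM => by
      haveI : Fact p.Prime := ⟨hp⟩
      rw [hff]
      have h0 := ev_cls (p := p) l (GF F Set.univ p ∧ l ∣ p - 1) (fun h => h.2) (g ^ (l - 1)) (by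
        intro hd
        have h1 := (Nat.prime_iff_prime_int.1 hp).dvd_of_dvd_pow hd
        exact hpM ((Int.natCast_dvd.1 h1).trans hgM))
      convert h0)
    (1 - c * θ) havg N
    (fun n x y hxy => by
      rw [hN]
      dsimp only
      apply card_le_card
      apply filter_subset_filter
      intro p hp
      rw [mem_GP] at hp ⊢
      exact ⟨hp.1.trans hxy, hp.2⟩) 0 (fun n x => by rw [hsum, sub_self, abs_zero]) (c * θ / 2)
      (by positivity)
  obtain ⟨C, X₀, hC, hX₀, J⟩ := h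
  obtain ⟨X1, hX14, hX1⟩ := small_ev (M.primeFactors.card : ℝ) (c * θ / 4) (by positivity)
  refine ⟨C, X₀ + X1, hC, by omega, fun X K u hX hu E hE hbad => J X K u (by omega) hu E hE fun k hk => ?_⟩
  obtain ⟨x, hx1, hx2, hcls⟩ := hbad k hk
  push Not at hcls
  obtain ⟨y, hy⟩ := hcls
  refine ⟨x, hx1, hx2, ?_⟩
  have hxX : X1 ≤ x := by omega
  have hpos := (pi_lower' x (by omega)).1
  have h2 : N (u k) x = (GP M x).card := by
    rw [hN]
    dsimp only
    rw [filter_true_of_mem]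
    intro p hp
    rw [mem_GP] at hp
    haveI : Fact p.Prime := ⟨hp.2.1⟩
    rw [hff]
    dsimp only
    unfold fC
    by_cases hG : GF F Set.univ p ∧ l ∣ p - 1
    · rw [if_pos hG, if_pos]
      by_cases h0 : ((u k : ℤ) : ZMod p) = 0
      · exact Or.inl h0
      · right
        have e1 : (((g ^ (l - 1) : ℤ)) : ZMod p) * ((u k : ℤ) : ZMod p) = (((g * y : ℤ)) : ZMod p) ^ l := by
          rw [hy]
          push_cast
          obtain ⟨l', rfl⟩ : ∃ l', l = l' + 1 := ⟨l - 1, by have := hl.pos; omega⟩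
          rw [Nat.add_sub_cancel]
          ring
        have e2 : (((g * y : ℤ)) : ZMod p) ≠ 0 := by
          intro h3
          rw [h3, zero_pow hl.ne_zero] at e1
          rcases mul_eq_zero.1 e1 with h4 | h4
          · rw [ZMod.intCast_zmod_eq_zero_iff_dvd] at h4
            have h5 := (Nat.prime_iff_prime_int.1 hp.2.1).dvd_of_dvd_pow h4
            exact hp.2.2 ((Int.natCast_dvd.1 h5).trans hgM)
          · exact h0 h4
        rw [e1, ← pow_mul, Nat.mul_div_cancel' hG.2]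
        exact ZMod.pow_card_sub_one_eq_one e2
    · rw [if_neg hG]
  have h3 := hX1 x hxX
  have h8 : 0 ≤ Real.log x := Real.log_natCast_nonneg x
  have h4 := GP_card_ge M hM x
  beta_reduce
  rw [h2, not_le]
  refine lt_of_lt_of_le ?_ (le_abs_self _)
  have h9 : 0 < c * θ * (Nat.primeCounting x : ℝ) := by positivity
  linarith

end

end Pool.Agent.KS6_33.LE
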