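import Pool.Agent.KS6_33.LE.LC

/-! # Lenstra's density for integers which are not powers -/

set_option autoImplicit false

namespace Pool.Agent.KS6_33.LE

open Finset Filter Topology NumberField IntermediateField
open Pool.Agent.H981R3.LN (ql Sk mem_Sk Sk_dvd Sk_prime Qn Qn_dvd Qn_pos)
open Pool.Agent.W171.LG
open Pool.Agent.W401.Cheb
open Pool.Agent.H730R2.AA.Euler (mu_eq_prod summable_bound sqrt_le_totient)

/-- integers with valuations divisible by `r` outside `Δ` -/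
lemma decomp (n : ℤ) (hn : n ≠ 0) (Δ r : ℕ) (hΔ : Δ ≠ 0) (hr : r ≠ 0)
    (h : ∀ p : ℕ, p.Prime → ¬ p ∣ Δ → r ∣ n.natAbs.factorization p) :
    ∃ g y : ℤ, n = g * y ^ r ∧ g ≠ 0 ∧ g.natAbs ≤ Δ ^ r := by
  classical
  have hn' : n.natAbs ≠ 0 := Int.natAbs_ne_zero.2 hn
  obtain ⟨a, ha⟩ : ∃ a : ℕ, a = ∏ p ∈ n.natAbs.primeFactors, p ^ (n.natAbs.factorization p % r) := ⟨_, rfl⟩
  obtain ⟨y, hy⟩ : ∃ y : ℕ, y = ∏ p ∈ n.natAbs.primeFactors, p ^ (n.natAbs.factorization p / r) := ⟨_, rfl⟩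
  have h1 : n.natAbs = a * y ^ r := by
    rw [ha, hy, ← prod_pow, ← prod_mul_distrib]
    conv_lhs => rw [← Nat.prod_factorization_pow_eq_self hn']
    rw [Finsupp.prod, Nat.support_factorization]
    apply prod_congr rfl
    intro p _
    rw [← pow_mul, ← pow_add]
    congr 1
    have := Nat.mod_add_div (n.natAbs.factorization p) r
    rw [mul_comm (n.natAbs.factorization p / r)]
    exact this.symm
  have ha0 : a ≠ 0 := by
    intro h0
    rw [h0, zero_mul] at h1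
    exact hn' h1
  have ha1 : a ≤ Δ ^ r := by
    have h2 : a = ∏ p ∈ n.natAbs.primeFactors.filter (fun p => p ∣ Δ), p ^ (n.natAbs.factorization p % r) := by
      rw [ha, prod_filter]
      apply prod_congr rfl
      intro p hp
      split_ifs with h3
      · rfl
      · rw [Nat.mod_eq_zero_of_dvd (h p (Nat.prime_of_mem_primeFactors hp) h3), pow_zero]
    have h3 : n.natAbs.primeFactors.filter (fun p => p ∣ Δ) ⊆ Δ.primeFactors := by
      intro p hp
      rw [mem_filter] at hp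
      exact Nat.mem_primeFactors.2 ⟨Nat.prime_of_mem_primeFactors hp.1, hp.2, hΔ⟩
    calc a = ∏ p ∈ n.natAbs.primeFactors.filter (fun p => p ∣ Δ), p ^ (n.natAbs.factorization p % r) := h2
      _ ≤ ∏ p ∈ n.natAbs.primeFactors.filter (fun p => p ∣ Δ), p ^ r := by
          apply prod_le_prod'
          intro p hp
          exact Nat.pow_le_pow_right (Nat.prime_of_mem_primeFactors (mem_filter.1 hp).1).pos
            (Nat.mod_lt _ (Nat.pos_of_ne_zero hr)).le
      _ ≤ ∏ p ∈ Δ.primeFactors, p ^ r :=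
          prod_le_prod_of_subset_of_one_le' h3 fun p hp _ =>
            Nat.one_le_pow _ _ (Nat.prime_of_mem_primeFactors hp).pos
      _ = (∏ p ∈ Δ.primeFactors, p) ^ r := by rw [prod_pow]
      _ ≤ Δ ^ r := Nat.pow_le_pow_left (Nat.le_of_dvd (Nat.pos_of_ne_zero hΔ) (Nat.prod_primeFactors_dvd Δ)) r
  refine ⟨n.sign * a, y, ?_, ?_, ?_⟩
  · have h2 := Int.sign_mul_natAbs n
    rw [h1] at h2
    push_cast at h2
    rw [mul_assoc]
    exact h2.symm
  · exact mul_ne_zero (by rwa [Ne, Int.sign_eq_zero_iff_zero]) (by exact_mod_cast ha0)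
  · rw [Int.natAbs_mul, Int.natAbs_sign_of_ne_zero hn, one_mul, Int.natAbs_natCast]
    exact ha1

/-- powers in a number field -/
lemma field_cls (K : IntermediateField ℚ QA) [NumberField K] (r : ℕ) (hr : r.Prime) (n : ℤ) (hn : n ≠ 0)
    (b : QA) (hb : b ∈ K) (h : b ^ r = algebraMap ℚ QA (n : ℚ)) :
    ∃ g y : ℤ, n = g * y ^ r ∧ g ≠ 0 ∧ g.natAbs ≤ (discr K).natAbs ^ r := by
  have hn' : n.natAbs ≠ 0 := Int.natAbs_ne_zero.2 hn
  refine decomp n hn (discr K).natAbs r (Int.natAbs_ne_zero.2 (discr_ne_zero K)) hr.ne_zero ?_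
  intro p hp hpd
  by_contra hcon
  have hc : (⟨b, hb⟩ : K) ^ r = ((n : ℤ) : K) := by
    apply Subtype.ext
    have e1 : (((⟨b, hb⟩ : K)) ^ r : K).1 = b ^ r := rfl
    have e2 : (((n : ℤ) : K) : QA) = ((n : ℤ) : QA) := by simp
    rw [e1, e2, h]
    simp
  have hd : ¬ (p : ℤ) ∣ discr K := fun h => hpd (Int.natCast_dvd.1 h)
  refine no_root_discr (K := K) (t := n.natAbs.factorization p) hp hr.pos hd (u := n) ?_ ?_ hcon _ hc
  · rw [← Int.dvd_natAbs]
    exact_mod_cast Nat.ordProj_dvd n.natAbs p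
  · rw [← Int.dvd_natAbs]
    have := Nat.pow_succ_factorization_not_dvd hn' hp
    exact_mod_cast this

/-- the exponents `l` for which `n` is an `l`-th power -/
lemma root_int (n : ℤ) (l : ℕ) (hl : l ≠ 0) (c : ℚ) (h : c ^ l = (n : ℚ)) : ∃ y : ℤ, n = y ^ l := by
  have h1 : IsIntegral ℤ c := by
    refine IsIntegral.of_pow (Nat.pos_of_ne_zero hl) ?_
    rw [h]
    exact isIntegral_algebraMap (R := ℤ) (A := ℚ) (x := n)
  obtain ⟨y, hy⟩ := IsIntegrallyClosed.isIntegral_iff.1 h1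
  refine ⟨y, ?_⟩
  have h2 : ((n : ℤ) : ℚ) = ((y ^ l : ℤ) : ℚ) := by
    rw [← h, ← hy]
    simp
  exact_mod_cast h2

/-- few exponents -/
lemma few_exp (n : ℤ) (hn : n ≠ 0) (Y : ℕ) (hY : 3 ≤ Y) (hY1 : ∀ l : ℕ, l.Prime → l ≤ Y → ∀ y : ℤ, n ≠ y ^ l)
    (hY2 : n.natAbs < 2 ^ (Y ^ 5)) : ∃ m : ℕ, m ≠ 0 ∧ Squarefree m ∧ m.divisors.card ≤ 16 ∧
      (∀ l : ℕ, l.Prime → (∃ c : ℚ, c ^ l = (n : ℚ)) → l ∣ m) ∧
      (∀ l : ℕ, l.Prime → l ∣ m → Y < l) := by
  classical
  have hn1 : n.natAbs ≠ 1 := by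
    intro h
    rcases Int.natAbs_eq n with h1 | h1
    · rw [h] at h1
      exact hY1 2 Nat.prime_two (by omega) 1 (by rw [h1]; norm_num)
    · rw [h] at h1
      exact hY1 3 Nat.prime_three hY (-1) (by rw [h1]; norm_num)
  have hn0 : n.natAbs ≠ 0 := Int.natAbs_ne_zero.2 hn
  obtain ⟨p, hpdef⟩ : ∃ p : ℕ, p = n.natAbs.minFac := ⟨_, rfl⟩
  have hp : p.Prime := by rw [hpdef]; exact Nat.minFac_prime hn1
  have hpn : p ∣ n.natAbs := by rw [hpdef]; exact Nat.minFac_dvd _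
  obtain ⟨v, hv⟩ : ∃ v : ℕ, v = n.natAbs.factorization p := ⟨_, rfl⟩
  have hv0 : v ≠ 0 := by
    rw [hv]
    have := (hp.dvd_iff_one_le_factorization hn0).1 hpn
    omega
  have hdv : ∀ l : ℕ, l ≠ 0 → (∃ c : ℚ, c ^ l = (n : ℚ)) → l ∣ v := by
    rintro l hl ⟨c, hc⟩
    obtain ⟨y, hy⟩ := root_int n l hl c hc
    rw [hv, hy, Int.natAbs_pow, Nat.factorization_pow]
    exact Dvd.intro _ rfl
  obtain ⟨P, hP⟩ : ∃ P : Finset ℕ, P = v.primeFactors.filter (fun l => ∃ c : ℚ, c ^ l = (n : ℚ)) := ⟨_, rfl⟩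
  have hPp : ∀ l ∈ P, l.Prime := by
    intro l hl
    rw [hP, mem_filter] at hl
    exact Nat.prime_of_mem_primeFactors hl.1
  have hPY : ∀ l ∈ P, Y < l := by
    intro l hl
    by_contra hcon
    have h1 := hPp l hl
    rw [hP, mem_filter] at hl
    obtain ⟨c, hc⟩ := hl.2
    obtain ⟨y, hy⟩ := root_int n l h1.ne_zero c hc
    exact hY1 l h1 (by omega) y hy
  obtain ⟨m, hm⟩ : ∃ m : ℕ, m = ∏ l ∈ P, l := ⟨_, rfl⟩
  have hmf : m.primeFactors = P := by rw [hm]; exact Nat.primeFactors_prod hPp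
  have hm0 : m ≠ 0 := by
    rw [hm]
    exact prod_ne_zero_iff.2 fun l hl => (hPp l hl).ne_zero
  have hsq : Squarefree m := by rw [hm]; exact Pool.Agent.H771R4.AQ.sqf_prod P hPp
  have hmv : m ∣ v := by
    have h1 : P ⊆ v.primeFactors := by rw [hP]; exact filter_subset _ _
    rw [hm]
    exact (prod_dvd_prod_of_subset _ _ _ h1).trans (Nat.prod_primeFactors_dvd v)
  have hmlt : m < Y ^ 5 := by
    have h1 : m ≤ v := Nat.le_of_dvd (Nat.pos_of_ne_zero hv0) hmv
    have h2 : p ^ v ≤ n.natAbs := by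
      rw [hv]
      exact Nat.le_of_dvd (Nat.pos_of_ne_zero hn0) (Nat.ordProj_dvd n.natAbs p)
    have h3 : 2 ^ v ≤ p ^ v := Nat.pow_le_pow_left hp.two_le v
    have h4 : 2 ^ v < 2 ^ (Y ^ 5) := by omega
    have h5 := (Nat.pow_lt_pow_iff_right (by norm_num : 1 < 2)).1 h4
    omega
  have hcard : P.card ≤ 4 := by
    by_contra hcon
    have h1 : Y ^ P.card ≤ m := by
      rw [hm, ← prod_const]
      exact prod_le_prod' fun l hl => (hPY l hl).le
    have h2 : Y ^ 5 ≤ Y ^ P.card := Nat.pow_le_pow_right (by omega) (by omega)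
    omega
  refine ⟨m, hm0, hsq, ?_, ?_, ?_⟩
  · have h1 : m.divisors.card ≤ P.powerset.card := by
      apply card_le_card_of_injOn (fun d => d.primeFactors)
      · intro d hd
        have hd' := Nat.mem_divisors.1 (mem_coe.1 hd)
        refine mem_coe.2 (mem_powerset.2 ?_)
        rw [← hmf]
        exact Nat.primeFactors_mono hd'.1 hm0
      · intro d hd d' hd' hdd
        have h2 := (Nat.mem_divisors.1 (mem_coe.1 hd)).1
        have h2' := (Nat.mem_divisors.1 (mem_coe.1 hd')).1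
        have h3 := Nat.prod_primeFactors_of_squarefree (hsq.squarefree_of_dvd h2)
        have h3' := Nat.prod_primeFactors_of_squarefree (hsq.squarefree_of_dvd h2')
        dsimp only at hdd
        rw [← h3, ← h3', hdd]
    rw [card_powerset] at h1
    calc m.divisors.card ≤ 2 ^ P.card := h1
      _ ≤ 2 ^ 4 := Nat.pow_le_pow_right (by norm_num) hcard
      _ = 16 := by norm_num
  · intro l hl hc
    have h1 : l ∈ P := by
      rw [hP, mem_filter, Nat.mem_primeFactors]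
      exact ⟨⟨hl, hdv l hl.ne_zero hc, hv0⟩, hc⟩
    rw [hm]
    exact dvd_prod_of_mem _ h1
  · intro l hl hlm
    apply hPY
    rw [← hmf]
    exact Nat.mem_primeFactors.2 ⟨hl, hlm, hm0⟩

/-- the odd part prime to `m` -/
lemma odd_part2 {n m : ℕ} (hn : Squarefree n) (hm : m ≠ 0) :
    ∃ e : ℕ, e ∣ n ∧ ¬ 2 ∣ e ∧ (∀ s : ℕ, s.Prime → s ∣ e → ¬ s ∣ m) ∧ n ≤ 2 * (Nat.gcd n m * e) := by
  classical
  have hn0 := hn.ne_zero
  obtain ⟨A, hA⟩ : ∃ A : Finset ℕ, A = n.primeFactors.filter (fun l => l ≠ 2 ∧ ¬ l ∣ m) := ⟨_, rfl⟩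
  obtain ⟨B, hB⟩ : ∃ B : Finset ℕ, B = n.primeFactors.filter (fun l => ¬ (l ≠ 2 ∧ ¬ l ∣ m)) := ⟨_, rfl⟩
  obtain ⟨D, hD⟩ : ∃ D : Finset ℕ, D = n.primeFactors.filter (fun l => l ∣ m) := ⟨_, rfl⟩
  have hAp : ∀ l ∈ A, l.Prime := fun l hl => by
    rw [hA, mem_filter] at hl
    exact Nat.prime_of_mem_primeFactors hl.1
  have hDp : ∀ l ∈ D, l.Prime := fun l hl => by
    rw [hD, mem_filter] at hl
    exact Nat.prime_of_mem_primeFactors hl.1
  have h1 : (∏ l ∈ A, l) * ∏ l ∈ B, l = n := by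
    rw [hA, hB, prod_filter_mul_prod_filter_not, Nat.prod_primeFactors_of_squarefree hn]
  have hdiv : ∀ s : ℕ, s.Prime → s ∣ ∏ l ∈ A, l → s ∈ A := by
    intro s hs hse
    rw [hs.prime.dvd_finsetProd_iff] at hse
    obtain ⟨l, hl, hsl⟩ := hse
    rwa [(Nat.prime_dvd_prime_iff_eq hs (hAp l hl)).1 hsl]
  refine ⟨∏ l ∈ A, l, Dvd.intro _ h1, ?_, ?_, ?_⟩
  · intro h2
    have := hdiv 2 Nat.prime_two h2
    rw [hA, mem_filter] at this
    exact this.2.1 rfl
  · intro s hs hse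
    have := hdiv s hs hse
    rw [hA, mem_filter] at this
    exact this.2.2
  · have h2 : ∏ l ∈ B, l ≤ 2 * ∏ l ∈ D, l := by
      have h3 : B ⊆ insert 2 D := by
        intro l hl
        rw [hB, mem_filter] at hl
        rw [mem_insert, hD, mem_filter]
        by_cases h4 : l = 2
        · exact Or.inl h4
        · right
          refine ⟨hl.1, ?_⟩
          by_contra h5
          exact hl.2 ⟨h4, h5⟩
      calc ∏ l ∈ B, l ≤ ∏ l ∈ insert 2 D, l := by
            apply prod_le_prod_of_subset_of_one_le' h3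
            intro l hl _
            rw [mem_insert] at hl
            rcases hl with rfl | hl
            · norm_num
            · exact (hDp l hl).one_le
        _ ≤ 2 * ∏ l ∈ D, l := by
            by_cases h4 : 2 ∈ D
            · rw [insert_eq_of_mem h4]
              omega
            · rw [prod_insert h4]
    have h3 : ∏ l ∈ D, l ≤ Nat.gcd n m := by
      apply Nat.le_of_dvd (Nat.gcd_pos_of_pos_left _ (Nat.pos_of_ne_zero hn0))
      apply Nat.dvd_gcd
      · have h4 : D ⊆ n.primeFactors := by rw [hD]; exact filter_subset _ _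
        exact (prod_dvd_prod_of_subset _ _ _ h4).trans (Nat.prod_primeFactors_dvd n)
      · have h4 : D ⊆ m.primeFactors := by
          intro l hl
          have h5 := hDp l hl
          rw [hD, mem_filter] at hl
          exact Nat.mem_primeFactors.2 ⟨h5, hl.2, hm⟩
        exact (prod_dvd_prod_of_subset _ _ _ h4).trans (Nat.prod_primeFactors_dvd m)
    calc n = (∏ l ∈ A, l) * ∏ l ∈ B, l := h1.symm
      _ ≤ (∏ l ∈ A, l) * (2 * Nat.gcd n m) :=
          Nat.mul_le_mul_left _ (h2.trans (Nat.mul_le_mul_left _ h3))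
      _ = _ := by ring

section
variable (F : IntermediateField ℚ QA) [NumberField F] [IsGalois ℚ F] (C : Set Gal(F/ℚ))
  {W W0 : Subgroup ℚˣ} (k : ℕ)

/-- the terms of the density when the generator is a power -/
lemma tW_bound2 (hW : W.FG) {u : ℚˣ} (hu : u ∈ W) {m : ℕ} (hm : m ≠ 0)
    (hur : ∀ s : ℕ, s.Prime → ¬ s ∣ m → ∀ c : ℚ, c ^ s ≠ (u : ℚ)) (n : ℕ) :
    ‖tW F C W k n‖ ≤ 2 * (Nat.card Gal(F/ℚ) : ℝ) * ((Nat.gcd n m : ℝ) * (2 * (1 / (n : ℝ) ^ (3 / 2 : ℝ)))) := by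
  rw [Real.norm_eq_abs]
  by_cases hs : Squarefree n
  · have hn : 0 < n := Nat.pos_of_ne_zero hs.ne_zero
    have hn0 : (0 : ℝ) < n := by exact_mod_cast hn
    unfold tW
    set Q := Qn k n with hQ
    have hQ0 : 0 < Q := Qn_pos k n
    have hnQ : n ∣ Q := Qn_dvd k n hs
    obtain ⟨e, he, he2, hem, hne⟩ := odd_part2 hs hm
    set d := Module.finrank ℚ (F ⊔ Lf QA W Q : IntermediateField ℚ QA) with hd
    have hdt : Nat.totient Q * e ≤ d := low_degR F hW hu
      (fun s hs hse c => hur s hs (hem s hs hse) c) hQ0 (he.trans hnQ) he2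
    have ht : Nat.totient n ≤ Nat.totient Q :=
      Nat.le_of_dvd (Nat.totient_pos.2 hQ0) (Nat.totient_dvd_of_dvd hnQ)
    have ht0 : 0 < Nat.totient n := Nat.totient_pos.2 hn
    have h1 : |((ArithmeticFunction.moebius n : ℤ) : ℝ)| ≤ 1 := by
      exact_mod_cast ArithmeticFunction.abs_moebius_le_one (n := n)
    have h2 : (cE F C (Lf QA W Q) : ℝ) ≤ (Nat.card Gal(F/ℚ) : ℝ) := by
      exact_mod_cast cE_le F C _
    have h3 := sqrt_le_totient n hn
    have h4 : (n : ℝ) ≤ 2 * ((Nat.gcd n m : ℝ) * e) := by exact_mod_cast hne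
    have h5 : (Nat.totient Q : ℝ) * e ≤ d := by exact_mod_cast hdt
    have h5' : (Nat.totient n : ℝ) ≤ Nat.totient Q := by exact_mod_cast ht
    have h6 : (0 : ℝ) < Nat.totient n := by exact_mod_cast ht0
    have hg0 : (0 : ℝ) ≤ (Nat.gcd n m : ℝ) := Nat.cast_nonneg _
    have h7 : (n : ℝ) ^ (3 / 2 : ℝ) = n * Real.sqrt n := by
      rw [show (3 / 2 : ℝ) = 1 + 1 / 2 by norm_num, Real.rpow_add hn0, Real.rpow_one,
        ← Real.sqrt_eq_rpow]
    have hs0 : 0 < Real.sqrt n := Real.sqrt_pos.mpr hn0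
    have h8 : (n : ℝ) * Real.sqrt n ≤ 4 * ((Nat.gcd n m : ℝ) * (d : ℝ)) := by
      calc (n : ℝ) * Real.sqrt n ≤ (2 * ((Nat.gcd n m : ℝ) * e)) * (2 * Nat.totient n) := by gcongr
        _ ≤ (2 * ((Nat.gcd n m : ℝ) * e)) * (2 * Nat.totient Q) := by gcongr
        _ = 4 * ((Nat.gcd n m : ℝ) * (Nat.totient Q * e)) := by ring
        _ ≤ _ := by gcongr
    have hprod : (0 : ℝ) < n * Real.sqrt n := by positivity
    have h9 : (0 : ℝ) < (d : ℝ) := by
      have h10 : (0 : ℝ) < (Nat.gcd n m : ℝ) * (d : ℝ) := by linarith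
      rcases (Nat.cast_nonneg d : (0 : ℝ) ≤ d).eq_or_lt with h | h
      · rw [← h, mul_zero] at h10
        exact absurd h10 (lt_irrefl _)
      · exact h
    rw [abs_div, abs_of_pos h9, abs_mul, Nat.abs_cast, h7]
    rw [div_le_iff₀ h9]
    have hc0 : (0 : ℝ) ≤ cE F C (Lf QA W Q) := Nat.cast_nonneg _
    have hA0 : (0 : ℝ) ≤ Nat.card Gal(F/ℚ) := Nat.cast_nonneg _
    calc |((ArithmeticFunction.moebius n : ℤ) : ℝ)| * (cE F C (Lf QA W Q) : ℝ)
        ≤ 1 * Nat.card Gal(F/ℚ) := by gcongr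
      _ = Nat.card Gal(F/ℚ) := one_mul _
      _ = Nat.card Gal(F/ℚ) * (1 / (n * Real.sqrt n) * (n * Real.sqrt n)) := by field_simp
      _ ≤ Nat.card Gal(F/ℚ) * (1 / (n * Real.sqrt n) * (4 * ((Nat.gcd n m : ℝ) * (d : ℝ)))) := by gcongr
      _ = _ := by ring
  · have h0 : tW F C W k n = 0 := by
      unfold tW
      rw [ArithmeticFunction.moebius_eq_zero_of_not_squarefree hs]
      simp
    rw [h0, abs_zero]
    positivity

/-- the sum over the multiples of `h` -/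
lemma mult_sum (h : ℕ) (hh : 0 < h) :
    HasSum (fun e : ℕ => if h ∣ e then (h : ℝ) * (2 * (1 / (e : ℝ) ^ (3 / 2 : ℝ))) else 0)
      (1 / Real.sqrt h * ∑' e : ℕ, 2 * (1 / (e : ℝ) ^ (3 / 2 : ℝ))) := by
  have hinj : Function.Injective (fun t : ℕ => h * t) := fun a b hab => Nat.eq_of_mul_eq_mul_left hh hab
  have hh0 : (0 : ℝ) < h := by exact_mod_cast hh
  rw [← hinj.hasSum_iff]
  · have h1 : ((fun e : ℕ => if h ∣ e then (h : ℝ) * (2 * (1 / (e : ℝ) ^ (3 / 2 : ℝ))) else 0) ∘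
        fun t : ℕ => h * t) = fun t : ℕ => 1 / Real.sqrt h * (2 * (1 / (t : ℝ) ^ (3 / 2 : ℝ))) := by
      funext t
      simp only [Function.comp_apply]
      rw [if_pos (Dvd.intro _ rfl)]
      push_cast
      rw [Real.mul_rpow hh0.le (Nat.cast_nonneg _)]
      have h2 : (h : ℝ) ^ (3 / 2 : ℝ) = h * Real.sqrt h := by
        rw [show (3 / 2 : ℝ) = 1 + 1 / 2 by norm_num, Real.rpow_add hh0, Real.rpow_one,
          ← Real.sqrt_eq_rpow]
      rw [h2]
      have hs0 : 0 < Real.sqrt h := Real.sqrt_pos.mpr hh0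
      by_cases ht : (t : ℝ) ^ (3 / 2 : ℝ) = 0
      · rw [ht]
        simp
      · field_simp
    rw [h1]
    exact summable_bound.hasSum.mul_left _
  · intro x hx
    rw [if_neg]
    rintro ⟨t, rfl⟩
    exact hx ⟨t, rfl⟩

/-- the terms agree for the integers which are not in the classes -/
lemma tW_eq2 (hW0 : W0.FG) {n : ℤ} (hn : n ≠ 0) {e : ℕ}
    (H : ∀ r : ℕ, r.Prime → r ∣ Qn k e → ∀ b : QA, b ∈ F ⊔ Lf QA W0 (Qn k e) →
      b ^ r ≠ algebraMap ℚ QA (n : ℚ)) :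
    tW F C (W0 ⊔ Subgroup.zpowers (Uz n)) k e = aT F C W0 k e := by
  have hQ0 : 0 < Qn k e := Qn_pos k e
  have H' : ∀ r : ℕ, r.Prime → r ∣ Qn k e → ∀ b : QA, b ∈ F ⊔ Lf QA W0 (Qn k e) →
      b ^ r ≠ algebraMap ℚ QA ((Uz n : ℚˣ) : ℚ) := by
    intro r hr hrQ b hb
    rw [Uz_val hn]
    exact H r hr hrQ b hb
  unfold tW aT
  rw [cE_gen F C hW0 hQ0 H', deg_gen F hQ0 H']
  push_cast
  rw [mul_comm ((Module.finrank ℚ (F ⊔ Lf QA W0 (Qn k e) : IntermediateField ℚ QA) : ℝ))]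

/-- **Lenstra's density for integers which are not in finitely many classes of powers** -/
theorem close2 (hW0 : W0.FG) (ε : ℝ) (hε : 0 < ε) : ∃ z B Y₀ : ℕ, ∀ (n : ℤ) (Y : ℕ), n ≠ 0 → Y₀ ≤ Y →
    (∀ l : ℕ, l.Prime → l ≤ z → ∀ g : ℤ, g ≠ 0 → g.natAbs ≤ B → ∀ y : ℤ, n ≠ g * y ^ l) →
    (∀ l : ℕ, l.Prime → l ≤ Y → ∀ y : ℤ, n ≠ y ^ l) → n.natAbs < 2 ^ (Y ^ 5) →
    |(∑' e : ℕ, tW F C (W0 ⊔ Subgroup.zpowers (Uz n)) k e) - ∑' e : ℕ, aT F C W0 k e| ≤ ε := by
  classical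
  obtain ⟨c, hc⟩ : ∃ c : ℝ, c = (Nat.card Gal(F/ℚ) : ℝ) := ⟨_, rfl⟩
  have hc0 : 0 ≤ c := by rw [hc]; exact Nat.cast_nonneg _
  obtain ⟨q, hq⟩ : ∃ q : ℕ → ℝ, q = fun e : ℕ => 2 * (1 / (e : ℝ) ^ (3 / 2 : ℝ)) := ⟨_, rfl⟩
  have hqs : Summable q := by rw [hq]; exact summable_bound
  have hq0 : ∀ e, 0 ≤ q e := fun e => by rw [hq]; positivity
  obtain ⟨S, hS⟩ : ∃ S : ℝ, S = ∑' e, q e := ⟨_, rfl⟩
  have hS0 : 0 ≤ S := by rw [hS]; exact tsum_nonneg hq0
  have hfs : Summable (fun e => 3 * c * q e) := hqs.mul_left _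
  have htail : Tendsto (fun z : ℕ => ∑' e : ℕ, 3 * c * q (e + z)) atTop (𝓝 0) :=
    tendsto_sum_nat_add (fun e => 3 * c * q e)
  obtain ⟨z, hz⟩ := ((Metric.tendsto_atTop.1 htail) (ε / 2) (by positivity))
  have hz' := hz z le_rfl
  rw [Real.dist_eq, sub_zero] at hz'
  -- the classes
  have hcls : ∀ e : ℕ, ∃ B : ℕ, ∀ r : ℕ, r.Prime → r ≤ z → ∀ n : ℤ, n ≠ 0 → ∀ b : QA,
      b ∈ F ⊔ Lf QA W0 (Qn k e) → b ^ r = algebraMap ℚ QA (n : ℚ) →
      ∃ g y : ℤ, n = g * y ^ r ∧ g ≠ 0 ∧ g.natAbs ≤ B := by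
    intro e
    have hfin := supF_fin F hW0 (Qn_pos k e)
    have hN : NumberField (F ⊔ Lf QA W0 (Qn k e) : IntermediateField ℚ QA) :=
      { to_charZero := inferInstance, to_finiteDimensional := hfin }
    refine ⟨(discr (F ⊔ Lf QA W0 (Qn k e) : IntermediateField ℚ QA)).natAbs ^ z,
      fun r hr hrz n hn b hb h => ?_⟩
    obtain ⟨g, y, h1, h2, h3⟩ := field_cls _ r hr n hn b hb h
    refine ⟨g, y, h1, h2, h3.trans (Nat.pow_le_pow_right ?_ hrz)⟩
    exact Int.natAbs_pos.2 (discr_ne_zero _)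
  choose B hB using hcls
  obtain ⟨Y₁, hY₁⟩ := exists_nat_ge ((64 * c * S / ε) ^ 2)
  refine ⟨z, (Finset.range z).sup B, max Y₁ 3, fun n Y hn hY hcl hpw hlt => ?_⟩
  have hY3 : 3 ≤ Y := (le_max_right _ _).trans hY
  have hYY : Y₁ ≤ Y := (le_max_left _ _).trans hY
  obtain ⟨m, hm0, hmsq, hmcard, hm1, hm2⟩ := few_exp n hn Y hY3 hpw hlt
  obtain ⟨W, hWdef⟩ : ∃ W : Subgroup ℚˣ, W = W0 ⊔ Subgroup.zpowers (Uz n) := ⟨_, rfl⟩
  rw [← hWdef]
  have hWfg : W.FG := by rw [hWdef]; exact hW0.sup ⟨{Uz n}, by simp [Subgroup.zpowers_eq_closure]⟩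
  have hu : Uz n ∈ W := by rw [hWdef]; exact Subgroup.mem_sup_right (Subgroup.mem_zpowers _)
  have hb : ∀ e, ‖tW F C W k e‖ ≤ 2 * c * ((Nat.gcd e m : ℝ) * q e) := by
    intro e
    have := tW_bound2 F C k hWfg hu hm0 (fun s hs hsm c hc => hsm (hm1 s hs ⟨c, by rw [hc, Uz_val hn]⟩)) e
    rw [hc, hq]
    exact this
  have ha : ∀ e, ‖aT F C W0 k e‖ ≤ c * q e := by
    intro e
    rw [hc, hq]
    exact aT_bound F C k hW0 e
  -- the majorant
  obtain ⟨f1, hf1⟩ : ∃ f1 : ℕ → ℝ, f1 = fun e : ℕ => if e < z then 0 else 3 * c * q e := ⟨_, rfl⟩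
  obtain ⟨f2, hf2⟩ : ∃ f2 : ℕ → ℕ → ℝ, f2 = fun h e : ℕ => if h ∣ e then (h : ℝ) * q e else 0 := ⟨_, rfl⟩
  have hf1s : Summable f1 := by
    refine Summable.of_nonneg_of_le (fun e => ?_) (fun e => ?_) hfs
    · rw [hf1]
      beta_reduce
      split_ifs
      · exact le_rfl
      · have := hq0 e
        positivity
    · rw [hf1]
      beta_reduce
      have := hq0 e
      split_ifs
      · positivity
      · exact le_rfl
  have hf1t : ∑' e, f1 e ≤ ε / 2 := by
    rw [← hf1s.sum_add_tsum_nat_add z, Finset.sum_eq_zero, zero_add]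
    · have : (fun i => f1 (i + z)) = fun e => 3 * c * q (e + z) := by
        funext i
        rw [hf1]
        beta_reduce
        rw [if_neg (by omega)]
      rw [this]
      exact (le_abs_self _).trans hz'.le
    · intro i hi
      rw [hf1]
      beta_reduce
      rw [if_pos (Finset.mem_range.1 hi)]
  have hf2s : ∀ h ∈ m.divisors.erase 1, HasSum (f2 h) (1 / Real.sqrt h * S) := by
    intro h hh
    have hh1 : 0 < h := Nat.pos_of_mem_divisors (mem_of_mem_erase hh)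
    have := mult_sum h hh1
    rw [hf2, hS, hq]
    exact this
  have hmaj : HasSum (fun e => f1 e + ∑ h ∈ m.divisors.erase 1, 2 * c * f2 h e)
      ((∑' e, f1 e) + ∑ h ∈ m.divisors.erase 1, 2 * c * (1 / Real.sqrt h * S)) :=
    hf1s.hasSum.add (hasSum_sum fun h hh => (hf2s h hh).mul_left _)
  have hle : ∀ e, ‖tW F C W k e - aT F C W0 k e‖ ≤ f1 e + ∑ h ∈ m.divisors.erase 1, 2 * c * f2 h e := by
    intro e
    have hf2n : ∀ h ∈ m.divisors.erase 1, 0 ≤ 2 * c * f2 h e := by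
      intro h _
      rw [hf2]
      beta_reduce
      have := hq0 e
      split_ifs <;> positivity
    have hs0 : 0 ≤ ∑ h ∈ m.divisors.erase 1, 2 * c * f2 h e := sum_nonneg hf2n
    by_cases he : e < z
    · have h1 : tW F C W k e = aT F C W0 k e := by
        rw [hWdef]
        apply tW_eq2 F C k hW0 hn
        intro r hr hrQ b hb' hbr
        have hre : r ∣ e ∧ e ≠ 0 := by
          unfold Qn at hrQ
          rw [hr.prime.dvd_finsetProd_iff] at hrQ
          obtain ⟨l, hl, hrl⟩ := hrQ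
          have hlp := Nat.prime_of_mem_primeFactors hl
          unfold ql at hrl
          have h1 : r = l := (Nat.prime_dvd_prime_iff_eq hr hlp).1 (hr.dvd_of_dvd_pow hrl)
          rw [h1]
          exact ⟨Nat.dvd_of_mem_primeFactors hl, (Nat.mem_primeFactors.1 hl).2.2⟩
        have hrz : r ≤ z := (Nat.le_of_dvd (Nat.pos_of_ne_zero hre.2) hre.1).trans he.le
        obtain ⟨g, y, h1, h2, h3⟩ := hB e r hr hrz n hn b hb' hbr
        exact hcl r hr hrz g h2 (h3.trans (Finset.le_sup (f := B) (Finset.mem_range.2 he))) y h1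
      rw [h1, sub_self, norm_zero, hf1]
      beta_reduce
      rw [if_pos he, zero_add]
      exact hs0
    · have h1 : (Nat.gcd e m : ℝ) * q e ≤ q e + ∑ h ∈ m.divisors.erase 1, f2 h e := by
        have hs1 : ∀ h ∈ m.divisors.erase 1, 0 ≤ f2 h e := by
          intro h _
          rw [hf2]
          beta_reduce
          have := hq0 e
          split_ifs <;> positivity
        by_cases hg : Nat.gcd e m = 1
        · rw [hg, Nat.cast_one, one_mul]
          have := sum_nonneg hs1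
          linarith
        · have h2 : Nat.gcd e m ∈ m.divisors.erase 1 :=
            mem_erase.2 ⟨hg, Nat.mem_divisors.2 ⟨Nat.gcd_dvd_right _ _, hm0⟩⟩
          have h3 := single_le_sum hs1 h2
          have h4 : f2 (Nat.gcd e m) e = (Nat.gcd e m : ℝ) * q e := by
            rw [hf2]
            beta_reduce
            rw [if_pos (Nat.gcd_dvd_left _ _)]
          rw [h4] at h3
          have := hq0 e
          linarith
      have h5 := hb e
      have h6 := ha e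
      have h7 := norm_sub_le (tW F C W k e) (aT F C W0 k e)
      have h8 := mul_le_mul_of_nonneg_left h1 (by positivity : 0 ≤ 2 * c)
      rw [mul_add, mul_sum] at h8
      have h9 : f1 e = 3 * c * q e := by
        rw [hf1]
        beta_reduce
        rw [if_neg he]
      rw [h9]
      linarith
  have hts : Summable (tW F C W k) := by
    have h1 : Summable (fun e => (f1 e + ∑ h ∈ m.divisors.erase 1, 2 * c * f2 h e) + ‖aT F C W0 k e‖) :=
      hmaj.summable.add (aT_summable F C k hW0).norm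
    refine Summable.of_norm_bounded h1 fun e => ?_
    have h2 := hle e
    have h3 : tW F C W k e = (tW F C W k e - aT F C W0 k e) + aT F C W0 k e := by ring
    calc ‖tW F C W k e‖ = ‖(tW F C W k e - aT F C W0 k e) + aT F C W0 k e‖ := by rw [← h3]
      _ ≤ _ := (norm_add_le _ _).trans (add_le_add h2 le_rfl)
  have has := aT_summable F C k hW0
  rw [← hts.tsum_sub has, ← Real.norm_eq_abs]
  refine (tsum_of_norm_bounded hmaj hle).trans ?_
  have hsum2 : ∑ h ∈ m.divisors.erase 1, 2 * c * (1 / Real.sqrt h * S) ≤ ε / 2 := by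
    have hYpos : (0 : ℝ) < Y := by exact_mod_cast (by omega : 0 < Y)
    have hsY : 0 < Real.sqrt Y := Real.sqrt_pos.2 hYpos
    have hterm : ∀ h ∈ m.divisors.erase 1, 2 * c * (1 / Real.sqrt h * S) ≤ 2 * c * (1 / Real.sqrt Y * S) := by
      intro h hh
      rw [mem_erase, Nat.mem_divisors] at hh
      have hYh : Y ≤ h := by
        obtain ⟨l, hl, hlh⟩ := Nat.exists_prime_and_dvd hh.1
        have h1 := hm2 l hl (hlh.trans hh.2.1)
        have h2 := Nat.le_of_dvd (Nat.pos_of_dvd_of_pos hh.2.1 (Nat.pos_of_ne_zero hm0)) hlh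
        omega
      have h3 : Real.sqrt Y ≤ Real.sqrt h := Real.sqrt_le_sqrt (by exact_mod_cast hYh)
      gcongr
    have hcd : ((m.divisors.erase 1).card : ℝ) ≤ 16 := by
      have := (card_le_card (erase_subset 1 m.divisors)).trans hmcard
      exact_mod_cast this
    have h10 : (64 * c * S / ε) ≤ Real.sqrt Y := by
      apply Real.le_sqrt_of_sq_le
      refine hY₁.trans ?_
      exact_mod_cast hYY
    have h11 : 64 * c * S ≤ ε * Real.sqrt Y := by
      rw [div_le_iff₀ hε] at h10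
      linarith
    calc ∑ h ∈ m.divisors.erase 1, 2 * c * (1 / Real.sqrt h * S)
        ≤ ∑ h ∈ m.divisors.erase 1, 2 * c * (1 / Real.sqrt Y * S) := sum_le_sum hterm
      _ = ((m.divisors.erase 1).card : ℝ) * (2 * c * (1 / Real.sqrt Y * S)) := by
          rw [sum_const, nsmul_eq_mul]
      _ ≤ 16 * (2 * c * (1 / Real.sqrt Y * S)) := mul_le_mul_of_nonneg_right hcd (by positivity)
      _ = (64 * c * S / Real.sqrt Y) / 2 := by field_simp; ring
      _ ≤ ε / 2 := by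
          apply div_le_div_of_nonneg_right _ (by norm_num)
          rw [div_le_iff₀ hsY]
          exact h11
  linarith

end

end Pool.Agent.KS6_33.LE
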