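import Mathlib

/-! # Few members of an exponential family are perfect powers of a given exponent -/

set_option autoImplicit false

namespace Pool.Agent.KS6_33.LE

open Finset Polynomial

/-- the size of a polynomial -/
lemma poly_size (R : ℤ[X]) (hR : R ≠ 0) : ∃ V : ℤ, 1 ≤ V ∧ ∀ x : ℤ, V ≤ |x| →
    3 * (|R.leadingCoeff| * |x| ^ R.natDegree) ≤ 4 * |R.eval x| ∧
    4 * |R.eval x| ≤ 5 * (|R.leadingCoeff| * |x| ^ R.natDegree) := by
  obtain ⟨e, he⟩ : ∃ e, e = R.natDegree := ⟨_, rfl⟩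
  obtain ⟨S, hS⟩ : ∃ S : ℤ, S = ∑ i ∈ range e, |R.coeff i| := ⟨_, rfl⟩
  have hS0 : 0 ≤ S := by rw [hS]; exact sum_nonneg fun _ _ => abs_nonneg _
  refine ⟨4 * S + 1, by omega, fun x hx => ?_⟩
  have hx1 : 1 ≤ |x| := by omega
  have hA : 1 ≤ |R.leadingCoeff| := Int.one_le_abs (leadingCoeff_ne_zero.2 hR)
  have h1 : R.eval x = ∑ i ∈ range e, R.coeff i * x ^ i + R.leadingCoeff * x ^ e := by
    rw [eval_eq_sum_range' (n := e + 1) (by omega), sum_range_succ]
    congr 2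
    rw [he]
    rfl
  have h2 : |x| * |∑ i ∈ range e, R.coeff i * x ^ i| ≤ S * |x| ^ e := by
    calc |x| * |∑ i ∈ range e, R.coeff i * x ^ i| ≤ |x| * ∑ i ∈ range e, |R.coeff i * x ^ i| :=
          mul_le_mul_of_nonneg_left (abs_sum_le_sum_abs _ _) (abs_nonneg _)
      _ = ∑ i ∈ range e, |R.coeff i| * |x| ^ (i + 1) := by
          rw [mul_sum]
          apply sum_congr rfl
          intro i _
          rw [abs_mul, abs_pow]
          ring
      _ ≤ ∑ i ∈ range e, |R.coeff i| * |x| ^ e := by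
          apply sum_le_sum
          intro i hi
          rw [mem_range] at hi
          exact mul_le_mul_of_nonneg_left (pow_le_pow_right₀ hx1 (by omega)) (abs_nonneg _)
      _ = S * |x| ^ e := by rw [hS, sum_mul]
  have h3 : 4 * |∑ i ∈ range e, R.coeff i * x ^ i| ≤ |x| ^ e := by
    have h4 : 0 < |x| := by omega
    have h5 : |x| * (4 * |∑ i ∈ range e, R.coeff i * x ^ i|) ≤ |x| * |x| ^ e := by
      have h6 : (4 * S) * |x| ^ e ≤ |x| * |x| ^ e := mul_le_mul_of_nonneg_right (by omega) (by positivity)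
      linarith
    exact le_of_mul_le_mul_left h5 h4
  have h4 : |x| ^ e ≤ |R.leadingCoeff| * |x| ^ e := le_mul_of_one_le_left (by positivity) hA
  have h5 : |R.leadingCoeff * x ^ e| = |R.leadingCoeff| * |x| ^ e := by rw [abs_mul, abs_pow]
  rw [h1, ← he]
  have h6 := abs_add_le (∑ i ∈ range e, R.coeff i * x ^ i) (R.leadingCoeff * x ^ e)
  have h7 := abs_sub_abs_le_abs_sub (R.leadingCoeff * x ^ e) (-∑ i ∈ range e, R.coeff i * x ^ i)
  rw [abs_neg, sub_neg_eq_add, add_comm (R.leadingCoeff * x ^ e)] at h7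
  rw [h5] at h6 h7
  constructor <;> linarith

/-- two different powers -/
lemma pow_gap (s t : ℤ) (l : ℕ) (hl : 1 ≤ l) (h : s ^ l ≠ t ^ l) : |s| ^ (l - 1) ≤ |s ^ l - t ^ l| := by
  have key : ∀ u w : ℤ, 0 ≤ u → u < w → w ^ (l - 1) ≤ w ^ l - u ^ l := by
    intro u w hu huw
    obtain ⟨m, rfl⟩ : ∃ m, l = m + 1 := ⟨l - 1, by omega⟩
    rw [Nat.add_sub_cancel, pow_succ, pow_succ]
    have h1 : u ^ m ≤ w ^ m := pow_le_pow_left₀ hu huw.le m
    have hw : 0 ≤ w := by omega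
    have h2 : u ^ m * u ≤ w ^ m * (w - 1) := mul_le_mul h1 (by omega) hu (pow_nonneg hw m)
    linarith
  rcases lt_trichotomy |s| |t| with h1 | h1 | h1
  · have h2 := key |s| |t| (abs_nonneg _) h1
    have h3 : |s| ^ (l - 1) ≤ |t| ^ (l - 1) := pow_le_pow_left₀ (abs_nonneg _) h1.le _
    have h4 := abs_sub_abs_le_abs_sub (t ^ l) (s ^ l)
    rw [abs_pow, abs_pow, abs_sub_comm] at h4
    linarith
  · have h2 : |s ^ l| = |t ^ l| := by rw [abs_pow, abs_pow, h1]
    rcases abs_eq_abs.1 h2 with h3 | h3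
    · exact absurd h3 h
    · have h4 : s ^ l - t ^ l = 2 * s ^ l := by
        rw [h3]; ring
      have h5 : s ≠ 0 := by
        rintro rfl
        rw [zero_pow (by omega)] at h3
        apply h
        rw [zero_pow (by omega)]
        omega
      have h6 : 1 ≤ |s| := Int.one_le_abs h5
      rw [h4, abs_mul, abs_pow]
      have h7 : |s| ^ (l - 1) ≤ |s| ^ l := pow_le_pow_right₀ h6 (by omega)
      have h8 : 0 ≤ |s| ^ l := by positivity
      have h9 : |(2 : ℤ)| = 2 := rfl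
      rw [h9]
      linarith
  · have h2 := key |t| |s| (abs_nonneg _) h1
    have h4 := abs_sub_abs_le_abs_sub (s ^ l) (t ^ l)
    rw [abs_pow, abs_pow] at h4
    linarith

/-- the gap principle -/
theorem gap (a : ℤ) (ha : 2 ≤ |a|) (P : ℤ[X]) (hP : P ≠ 0) (hR : P.eraseLead ≠ 0) :
    ∃ J₀ : ℕ, ∀ (c : ℤ) (l j h : ℕ), c ≠ 0 → 4 * P.natDegree ≤ l → J₀ ≤ j → 1 ≤ h →
      (∃ y : ℤ, P.eval (c * a ^ j) = y ^ l) → (∃ y : ℤ, P.eval (c * a ^ (j + l * h)) = y ^ l) →
      2 * j ≤ j + l * h := by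
  obtain ⟨V₁, hV₁, hs₁⟩ := poly_size P hP
  obtain ⟨V₂, hV₂, hs₂⟩ := poly_size P.eraseLead hR
  obtain ⟨d, hd⟩ : ∃ d, d = P.natDegree := ⟨_, rfl⟩
  obtain ⟨e, he⟩ : ∃ e, e = P.eraseLead.natDegree := ⟨_, rfl⟩
  have hd1 : 1 ≤ d := by
    by_contra hcon
    have h0 : P.natDegree = 0 := by omega
    have h1 : P = C (P.coeff 0) := eq_C_of_natDegree_eq_zero h0
    apply hR
    rw [h1]
    exact eraseLead_C _
  have hed : e < d := by
    have h1 := eraseLead_natDegree_lt_or_eraseLead_eq_zero P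
    rcases h1 with h1 | h1
    · omega
    · exact absurd h1 hR
  obtain ⟨A, hA⟩ : ∃ A : ℤ, A = |P.eraseLead.leadingCoeff| := ⟨_, rfl⟩
  have hA1 : 1 ≤ A := by rw [hA]; exact Int.one_le_abs (leadingCoeff_ne_zero.2 hR)
  have hPA : 1 ≤ |P.leadingCoeff| := Int.one_le_abs (leadingCoeff_ne_zero.2 hP)
  have ha0 : 0 < |a| := by omega
  have ha1 : 1 ≤ |a| := by omega
  obtain ⟨b₀, hb₀⟩ := pow_unbounded_of_one_lt (6 * A) (by omega : 1 < |a|)
  obtain ⟨J₁, hJ₁⟩ := pow_unbounded_of_one_lt (max V₁ V₂) (by omega : 1 < |a|)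
  refine ⟨max J₁ (2 * b₀), ?_⟩
  rintro c l j h hc hl hj hh ⟨y, hy⟩ ⟨y', hy'⟩
  have hjJ : J₁ ≤ j := (le_max_left _ _).trans hj
  have hjb : 2 * b₀ ≤ j := (le_max_right _ _).trans hj
  have hl1 : 1 ≤ l := by omega
  obtain ⟨v, hv⟩ : ∃ v : ℤ, v = c * a ^ j := ⟨_, rfl⟩
  obtain ⟨b, hb⟩ : ∃ b : ℤ, b = a ^ (l * h) := ⟨_, rfl⟩
  have hvj : |a| ^ j ≤ |v| := by
    rw [hv, abs_mul, abs_pow]
    exact le_mul_of_one_le_left (by positivity) (Int.one_le_abs hc)
  have hVv : max V₁ V₂ ≤ |v| :=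
    hJ₁.le.trans ((pow_le_pow_right₀ ha1 hjJ).trans hvj)
  have hv1 : 1 ≤ |v| := hV₁.trans ((le_max_left _ _).trans hVv)
  have hb2 : 2 ≤ |b| := by
    rw [hb, abs_pow]
    calc 2 ≤ |a| ^ 1 := by rw [pow_one]; exact ha
      _ ≤ _ := pow_le_pow_right₀ ha1 (Nat.mul_pos hl1 hh)
  have hbv : |v| ≤ |b * v| := by
    rw [abs_mul]
    exact le_mul_of_one_le_left (by positivity) (by omega)
  have hbv' : c * a ^ (j + l * h) = b * v := by
    rw [hb, hv, pow_add]
    ring
  rw [hbv'] at hy'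
  rw [← hv] at hy
  have q1 := hs₁ v ((le_max_left _ _).trans hVv)
  have q2 := hs₂ v ((le_max_right _ _).trans hVv)
  have q3 := hs₂ (b * v) (((le_max_right _ _).trans hVv).trans hbv)
  rw [← hd] at q1
  rw [← he, ← hA] at q2 q3
  -- the decomposition
  have hdec : ∀ x : ℤ, P.eval x = P.leadingCoeff * x ^ d + P.eraseLead.eval x := by
    intro x
    conv_lhs => rw [← eraseLead_add_monomial_natDegree_leadingCoeff P]
    rw [eval_add, eval_monomial, hd]
    ring
  have hD : (a ^ (d * h) * y) ^ l - y' ^ l = b ^ d * P.eraseLead.eval v - P.eraseLead.eval (b * v) := by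
    have e1 : (a ^ (d * h)) ^ l = b ^ d := by
      rw [hb, ← pow_mul, ← pow_mul]
      congr 1
      ring
    rw [mul_pow, e1, ← hy, ← hy', hdec v, hdec (b * v)]
    ring
  have hbe : 2 * (|b| ^ e * |v| ^ e) ≤ |b| ^ d * |v| ^ e := by
    have h1 : 2 * |b| ^ e ≤ |b| ^ d := by
      calc 2 * |b| ^ e ≤ |b| * |b| ^ e := mul_le_mul_of_nonneg_right hb2 (by positivity)
        _ = |b| ^ (e + 1) := by ring
        _ ≤ _ := pow_le_pow_right₀ (by omega) (by omega)
    have h2 := mul_le_mul_of_nonneg_right h1 (by positivity : 0 ≤ |v| ^ e)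
    linarith
  have hbvR : 4 * |P.eraseLead.eval (b * v)| ≤ 5 * (A * (|b| ^ e * |v| ^ e)) := by
    have := q3.2
    rwa [abs_mul, mul_pow] at this
  have hbR : |b ^ d * P.eraseLead.eval v| = |b| ^ d * |P.eraseLead.eval v| := by rw [abs_mul, abs_pow]
  obtain ⟨T, hTdef⟩ : ∃ T : ℤ, T = A * (|b| ^ d * |v| ^ e) := ⟨_, rfl⟩
  obtain ⟨T', hT'def⟩ : ∃ T' : ℤ, T' = A * (|b| ^ e * |v| ^ e) := ⟨_, rfl⟩
  have hT : 0 < T := by rw [hTdef]; positivity
  have h5a : 2 * T' ≤ T := by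
    rw [hTdef, hT'def]
    have := mul_le_mul_of_nonneg_left hbe (by omega : 0 ≤ A)
    linarith
  have h5b : 3 * T ≤ 4 * |b ^ d * P.eraseLead.eval v| := by
    rw [hbR, hTdef]
    have := mul_le_mul_of_nonneg_left q2.1 (by positivity : 0 ≤ |b| ^ d)
    linarith
  have h5c : 4 * |b ^ d * P.eraseLead.eval v| ≤ 5 * T := by
    rw [hbR, hTdef]
    have := mul_le_mul_of_nonneg_left q2.2 (by positivity : 0 ≤ |b| ^ d)
    linarith
  rw [← hT'def] at hbvR
  have hne : (a ^ (d * h) * y) ^ l ≠ y' ^ l := by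
    intro h1
    rw [h1, sub_self] at hD
    have h2 : b ^ d * P.eraseLead.eval v = P.eraseLead.eval (b * v) := by linarith
    rw [h2] at h5b
    linarith
  have hDle : |(a ^ (d * h) * y) ^ l - y' ^ l| ≤ 3 * A * (|b| ^ d * |v| ^ e) := by
    rw [hD]
    have h1 := abs_sub (b ^ d * P.eraseLead.eval v) (P.eraseLead.eval (b * v))
    have h2 : 3 * A * (|b| ^ d * |v| ^ e) = 3 * T := by rw [hTdef]; ring
    rw [h2]
    linarith
  have hgap := pow_gap (a ^ (d * h) * y) y' l hl1 hne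
  have hve : |v| ^ e ≤ |v| ^ (d - 1) := pow_le_pow_right₀ hv1 (by omega)
  -- the inequality for `y`
  have hbd : |b| ^ d = |a| ^ (d * h * (l - 1)) * |a| ^ (d * h) := by
    rw [hb, abs_pow, ← pow_mul, ← pow_add]
    congr 1
    obtain ⟨m, rfl⟩ : ∃ m, l = m + 1 := ⟨l - 1, by omega⟩
    rw [Nat.add_sub_cancel]
    ring
  have h6 : |a| ^ (d * h * (l - 1)) * |y| ^ (l - 1) ≤
      |a| ^ (d * h * (l - 1)) * (3 * A * (|a| ^ (d * h) * |v| ^ (d - 1))) := by
    calc |a| ^ (d * h * (l - 1)) * |y| ^ (l - 1) = |a ^ (d * h) * y| ^ (l - 1) := by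
          rw [abs_mul, abs_pow, mul_pow, ← pow_mul]
      _ ≤ 3 * A * (|b| ^ d * |v| ^ e) := hgap.trans hDle
      _ ≤ 3 * A * (|b| ^ d * |v| ^ (d - 1)) := by
          apply mul_le_mul_of_nonneg_left _ (by omega)
          exact mul_le_mul_of_nonneg_left hve (by positivity)
      _ = _ := by rw [hbd]; ring
  have h7 : |y| ^ (l - 1) ≤ 3 * A * (|a| ^ (d * h) * |v| ^ (d - 1)) :=
    le_of_mul_le_mul_left h6 (by positivity)
  have h8 : |v| ^ d ≤ 2 * |y| ^ l := by
    have h9 : |P.eval v| = |y| ^ l := by rw [hy, abs_pow]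
    rw [h9] at q1
    have h10 : |v| ^ d ≤ |P.leadingCoeff| * |v| ^ d := le_mul_of_one_le_left (by positivity) hPA
    have h11 : 0 ≤ |y| ^ l := by positivity
    linarith [q1.1]
  -- the final inequality
  have h9 : |v| ^ (l - d) * |v| ^ ((d - 1) * l) ≤ |a| ^ ((b₀ + d * h) * l) * |v| ^ ((d - 1) * l) := by
    calc |v| ^ (l - d) * |v| ^ ((d - 1) * l) = (|v| ^ d) ^ (l - 1) := by
          rw [← pow_add, ← pow_mul]
          congr 1
          obtain ⟨m, rfl⟩ : ∃ m, l = d + m := ⟨l - d, by omega⟩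
          obtain ⟨d', rfl⟩ : ∃ d', d = d' + 1 := ⟨d - 1, by omega⟩
          rw [Nat.add_sub_cancel_left, Nat.add_sub_cancel, show d' + 1 + m - 1 = d' + m by omega]
          ring
      _ ≤ (2 * |y| ^ l) ^ (l - 1) := pow_le_pow_left₀ (by positivity) h8 _
      _ = 2 ^ (l - 1) * (|y| ^ (l - 1)) ^ l := by
          rw [mul_pow, ← pow_mul, ← pow_mul, mul_comm l]
      _ ≤ 2 ^ l * (3 * A * (|a| ^ (d * h) * |v| ^ (d - 1))) ^ l := by
          apply mul_le_mul
          · exact pow_le_pow_right₀ (by norm_num) (by omega)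
          · exact pow_le_pow_left₀ (by positivity) h7 _
          · positivity
          · positivity
      _ = (6 * A) ^ l * (|a| ^ (d * h * l) * |v| ^ ((d - 1) * l)) := by
          rw [← mul_pow, pow_mul |a| (d * h) l, pow_mul |v| (d - 1) l, ← mul_pow, ← mul_pow]
          congr 1
          ring
      _ ≤ (|a| ^ b₀) ^ l * (|a| ^ (d * h * l) * |v| ^ ((d - 1) * l)) := by
          apply mul_le_mul_of_nonneg_right _ (by positivity)
          exact pow_le_pow_left₀ (by omega) hb₀.le _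
      _ = _ := by
          rw [← pow_mul, ← mul_assoc, ← pow_add]
          congr 2
          ring
  have h10 : |v| ^ (l - d) ≤ |a| ^ ((b₀ + d * h) * l) := le_of_mul_le_mul_right h9 (by positivity)
  have h11 : |a| ^ (j * (l - d)) ≤ |a| ^ ((b₀ + d * h) * l) := by
    refine le_trans ?_ h10
    rw [pow_mul]
    exact pow_le_pow_left₀ (by positivity) hvj _
  have h12 : j * (l - d) ≤ (b₀ + d * h) * l := (pow_le_pow_iff_right₀ (by omega)).1 h11
  have h13 : 3 * (j * l) ≤ 4 * (j * (l - d)) := by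
    have h14 : 3 * l ≤ 4 * (l - d) := by omega
    have h14' := Nat.mul_le_mul_left j h14
    calc 3 * (j * l) = j * (3 * l) := by ring
      _ ≤ j * (4 * (l - d)) := h14'
      _ = _ := by ring
  have h15 : 3 * j ≤ 4 * (b₀ + d * h) := by
    have h16 : (3 * j) * l ≤ (4 * (b₀ + d * h)) * l := by
      calc (3 * j) * l = 3 * (j * l) := by ring
        _ ≤ 4 * (j * (l - d)) := h13
        _ ≤ 4 * ((b₀ + d * h) * l) := Nat.mul_le_mul_left 4 h12
        _ = _ := by ring
    exact Nat.le_of_mul_le_mul_right h16 hl1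
  have h17 : 4 * d * h ≤ l * h := Nat.mul_le_mul_right h (by omega)
  have h18 : 4 * (b₀ + d * h) = 4 * b₀ + 4 * d * h := by ring
  rw [h18] at h15
  omega

/-- few perfect powers -/
theorem few_pow (a : ℤ) (ha : 2 ≤ |a|) (P : ℤ[X]) (hP : P ≠ 0) (hR : P.eraseLead ≠ 0) :
    ∃ J₀ : ℕ, ∀ (c : ℤ) (l K : ℕ), c ≠ 0 → 4 * P.natDegree ≤ l → 0 < l → ∀ E : Finset ℕ, E ⊆ range K →
      (∀ j ∈ E, ∃ y : ℤ, P.eval (c * a ^ j) = y ^ l) → E.card ≤ J₀ + l * (Nat.log 2 K + 1) := by
  classical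
  obtain ⟨J₀, hJ⟩ := gap a ha P hP hR
  refine ⟨J₀ + 1, fun c l K hc hl hl0 E hEK hE => ?_⟩
  have h1 : E ⊆ range (J₀ + 1) ∪ E.filter (fun j => J₀ + 1 ≤ j) := by
    intro j hj
    rw [mem_union, mem_range, mem_filter]
    by_cases h : J₀ + 1 ≤ j
    · exact Or.inr ⟨hj, h⟩
    · exact Or.inl (by omega)
  have h2 := (card_le_card h1).trans (card_union_le _ _)
  rw [card_range] at h2
  refine h2.trans (Nat.add_le_add_left ?_ _)
  have h3 : (E.filter (fun j => J₀ + 1 ≤ j)).card ≤ (range l ×ˢ range (Nat.log 2 K + 1)).card := by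
    apply card_le_card_of_injOn (fun j => (j % l, Nat.log 2 j))
    · intro j hj
      have hj' := mem_filter.1 (mem_coe.1 hj)
      refine mem_coe.2 (mem_product.2 ⟨mem_range.2 (Nat.mod_lt _ hl0), mem_range.2 ?_⟩)
      have := Nat.log_mono_right (b := 2) (mem_range.1 (hEK hj'.1)).le
      dsimp only
      omega
    · have key : ∀ i j : ℕ, i ∈ E.filter (fun j => J₀ + 1 ≤ j) → j ∈ E.filter (fun j => J₀ + 1 ≤ j) →
          i % l = j % l → i < j → Nat.log 2 i < Nat.log 2 j := by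
        intro i j hi hj hmod hij
        rw [mem_filter] at hi hj
        obtain ⟨h, hh⟩ : l ∣ j - i := (Nat.modEq_iff_dvd' hij.le).1 hmod
        have hji : j = i + l * h := by omega
        have hh1 : 1 ≤ h := by
          by_contra hcon
          have : h = 0 := by omega
          rw [this] at hh
          omega
        have h4 := hJ c l i h hc hl (by omega) hh1 (hE i hi.1) (by rw [← hji]; exact hE j hj.1)
        rw [← hji] at h4
        have h5 : Nat.log 2 (i * 2) ≤ Nat.log 2 j := Nat.log_mono_right (by omega)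
        rw [Nat.log_mul_base (by norm_num) (by omega)] at h5
        omega
      intro i hi j hj hij
      have hi' := mem_coe.1 hi
      have hj' := mem_coe.1 hj
      simp only [Prod.mk.injEq] at hij
      rcases lt_trichotomy i j with h | h | h
      · have := key i j hi' hj' hij.1 h
        omega
      · exact h
      · have := key j i hj' hi' hij.1.symm h
        omega
  rwa [card_product, card_range, card_range] at h3

end Pool.Agent.KS6_33.LE
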