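import Pool.Agent.KS6_33.LE.LD
import Pool.Agent.KS6_33.LE.LE

/-! # Lenstra's density for the exponential families -/

set_option autoImplicit false

namespace Pool.Agent.KS6_33.LE

open Finset Filter Topology NumberField Polynomial Pool.Agent.R459.Eq Pool.Agent.H730R2.AA Pool.Agent.R318.PR
  Pool.Agent.KS6_33.EX Pool.Agent.KS6_33.SP
open Pool.Agent.W171.LG
open Pool.Agent.W401.Cheb

/-- the exponential families -/
def AdmE (a : ℤ) (P : ℤ[X]) (X : ℕ) (_ : ℕ) (u : ℕ → ℤ) : Prop :=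
  ∃ c : ℤ, c ≠ 0 ∧ (c.natAbs.primeFactors.card : ℝ) ≤ Real.sqrt X ∧ u = fun j : ℕ => P.eval (c * a ^ j)

/-- the range of `x` -/
def RE (κ : ℝ) (x K : ℕ) : Prop := (x : ℝ) ^ (1 + κ) ≤ K

theorem all_E (a : ℤ) (ha : 2 ≤ |a|) (P : ℤ[X]) (d M₀ : ℕ) (hW : ∀ p : ℕ, p.Prime → ¬ p ∣ M₀ → WB P d p)
    (A : ℕ) (κ : ℝ) (hκ : 0 < κ) : AllH M₀ (AdmE a P) (RE κ) (fun X => 1 / (Real.log X) ^ A) := by
  intro M hM hM₀M f μ hE δ havg N hN K₀ hNK ε hε
  obtain ⟨C, X₀, hC, hX₀, h⟩ := all_exp a ha P d M hM (fun p hp hpM => hW p hp (fun h => hpM (h.trans hM₀M)))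
    f μ hE δ havg (fun v x => N (P.eval v) x) (fun v => hN _) K₀ (fun v x => hNK _ _) A ε κ hε hκ
  refine ⟨C, X₀, hC, hX₀, ?_⟩
  rintro X K u hX ⟨c, hc, hcX, rfl⟩ E hEK hbad
  rw [mul_one_div]
  refine h X K c hX hc hcX E hEK fun j hj => ?_
  obtain ⟨x, hx1, hx2, hx3⟩ := hbad j hj
  exact ⟨x, hx1, hx2, not_le.1 hx3⟩

/-- finitely many classes -/
lemma g_fin {Adm : ℕ → ℕ → (ℕ → ℤ) → Prop} {R : ℕ → ℕ → Prop} {w : ℕ → ℝ}
    {ι : Type*} (s : Finset ι) (Q : ι → ℤ → ℕ → Prop) (hw : ∀ X, 0 ≤ w X)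
    (h : ∀ i ∈ s, FewG Adm R w (Q i)) : FewG Adm R w (fun n x => ∀ i ∈ s, Q i n x) := by
  classical
  induction s using Finset.induction_on with
  | empty =>
    refine ⟨1, 9, one_pos, le_rfl, fun X K u _ _ E _ hbad => ?_⟩
    have h0 : E = ∅ := by
      rw [eq_empty_iff_forall_notMem]
      intro k hk
      obtain ⟨x, _, _, hx⟩ := hbad k hk
      exact hx (by simp)
    rw [h0, card_empty]
    have := hw X
    push_cast
    positivity
  | insert i s _ ih =>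
    refine fewG_or _ _ _ (h i (mem_insert_self _ _)) (ih fun j hj => h j (mem_insert_of_mem hj)) ?_
    intro n x h1 h2 j hj
    rw [mem_insert] at hj
    rcases hj with rfl | hj
    · exact h1
    · exact h2 j hj

/-- the size of the members -/
lemma size_le (a : ℤ) (P : ℤ[X]) : ∃ C : ℕ, ∀ (c : ℤ) (j K : ℕ), c.natAbs ≤ 2 ^ K → j < K →
    (P.eval (c * a ^ j)).natAbs < 2 ^ (C * K) := by
  obtain ⟨S, hS⟩ : ∃ S : ℕ, S = ∑ i ∈ range (P.natDegree + 1), (P.coeff i).natAbs := ⟨_, rfl⟩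
  obtain ⟨d, hd⟩ : ∃ d, d = P.natDegree := ⟨_, rfl⟩
  obtain ⟨s, hs⟩ := pow_unbounded_of_one_lt S (by norm_num : 1 < 2)
  obtain ⟨t, ht⟩ := pow_unbounded_of_one_lt a.natAbs (by norm_num : 1 < 2)
  refine ⟨s + d * (1 + t) + 1, fun c j K hc hj => ?_⟩
  have hv : (c * a ^ j).natAbs ≤ 2 ^ ((1 + t) * K) := by
    rw [Int.natAbs_mul, Int.natAbs_pow]
    calc c.natAbs * a.natAbs ^ j ≤ 2 ^ K * (2 ^ t) ^ K := by
          apply Nat.mul_le_mul hc
          calc a.natAbs ^ j ≤ (2 ^ t) ^ j := Nat.pow_le_pow_left ht.le _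
            _ ≤ (2 ^ t) ^ K := Nat.pow_le_pow_right (by positivity) hj.le
      _ = 2 ^ ((1 + t) * K) := by
          rw [← pow_mul, ← pow_add]
          congr 1
          ring
  have h1 : (P.eval (c * a ^ j)).natAbs ≤ S * 2 ^ (d * ((1 + t) * K)) := by
    rw [eval_eq_sum_range]
    refine (Int.natAbs_sum_le _ _).trans ?_
    rw [hS, sum_mul]
    apply sum_le_sum
    intro i hi
    rw [mem_range] at hi
    rw [Int.natAbs_mul, Int.natAbs_pow]
    apply Nat.mul_le_mul_left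
    calc (c * a ^ j).natAbs ^ i ≤ (2 ^ ((1 + t) * K)) ^ i := Nat.pow_le_pow_left hv _
      _ ≤ (2 ^ ((1 + t) * K)) ^ d := Nat.pow_le_pow_right (by positivity) (by omega)
      _ = _ := by rw [← pow_mul, mul_comm]
  calc (P.eval (c * a ^ j)).natAbs ≤ S * 2 ^ (d * ((1 + t) * K)) := h1
    _ < 2 ^ s * 2 ^ (d * ((1 + t) * K)) := Nat.mul_lt_mul_of_pos_right hs (by positivity)
    _ = 2 ^ (s + d * ((1 + t) * K)) := by rw [pow_add]
    _ ≤ _ := by
        apply Nat.pow_le_pow_right (by norm_num)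
        have h2 : s ≤ s * K := Nat.le_mul_of_pos_right s (by omega)
        have h3 : (s + d * (1 + t) + 1) * K = s * K + d * ((1 + t) * K) + K := by ring
        omega

/-- the choice of the bound for the exponents -/
lemma choose_Y (A C J₀ Y₀ : ℕ) : ∃ K₀ : ℕ, ∀ K : ℕ, K₀ ≤ K → ∃ Y : ℕ, Y₀ ≤ Y ∧ C * K ≤ Y ^ 5 ∧
    (((Y + 1) * (J₀ + Y * (Nat.log 2 K + 1)) : ℕ) : ℝ) * (Real.log K) ^ A ≤ K := by
  have e1 := (ev_log_pow ((A + 2 : ℕ) : ℝ) (1 / 3) (by norm_num))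
  have e2 : ∀ᶠ K : ℕ in atTop, ((6 * (J₀ + 1) : ℕ) : ℝ) + 1 ≤ Real.log K := log_atTop.eventually_ge_atTop _
  obtain ⟨K₁, hK₁⟩ := eventually_atTop.1 (e1.and e2)
  refine ⟨K₁ + (2 * (Y₀ + 8 * C + 2)) ^ 3, fun K hK => ?_⟩
  obtain ⟨h1, h2⟩ := hK₁ K (by omega)
  have hKb : (2 * (Y₀ + 8 * C + 2)) ^ 3 ≤ K := by omega
  have hK0 : 0 < K := lt_of_lt_of_le (by positivity) hKb
  have hKr : (0 : ℝ) < K := by exact_mod_cast hK0
  obtain ⟨Y, hY⟩ : ∃ Y : ℕ, Y = ⌊(K : ℝ) ^ (1 / 3 : ℝ)⌋₊ := ⟨_, rfl⟩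
  have hY1 : (Y : ℝ) ≤ (K : ℝ) ^ (1 / 3 : ℝ) := by rw [hY]; exact Nat.floor_le (by positivity)
  have hY2 : (K : ℝ) ^ (1 / 3 : ℝ) < Y + 1 := by rw [hY]; exact Nat.lt_floor_add_one _
  have hcube : ((K : ℝ) ^ (1 / 3 : ℝ)) ^ 3 = K := by
    rw [← Real.rpow_natCast, ← Real.rpow_mul hKr.le]
    norm_num
  have hYK : K < (Y + 1) ^ 3 := by
    have h3 : (K : ℝ) < (Y + 1) ^ 3 := by
      rw [← hcube]
      exact pow_lt_pow_left₀ hY2 (by positivity) (by norm_num)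
    exact_mod_cast h3
  have hYb : 2 * (Y₀ + 8 * C + 2) < Y + 1 := by
    by_contra hcon
    push Not at hcon
    have := Nat.pow_le_pow_left hcon 3
    omega
  have hYbig : Y₀ + 8 * C + 2 ≤ Y := by omega
  refine ⟨Y, by omega, ?_, ?_⟩
  · have h3 : K ≤ 8 * Y ^ 3 := by
      have : (Y + 1) ^ 3 ≤ (2 * Y) ^ 3 := Nat.pow_le_pow_left (by omega) 3
      have h4 : (2 * Y) ^ 3 = 8 * Y ^ 3 := by ring
      omega
    calc C * K ≤ C * (8 * Y ^ 3) := Nat.mul_le_mul_left _ h3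
      _ = (8 * C) * Y ^ 3 := by ring
      _ ≤ Y ^ 2 * Y ^ 3 := by
          apply Nat.mul_le_mul_right
          have : 8 * C ≤ Y := by omega
          nlinarith
      _ = Y ^ 5 := by ring
  · obtain ⟨L, hL⟩ : ∃ L : ℝ, L = Real.log K := ⟨_, rfl⟩
    rw [← hL] at h1 h2 ⊢
    rw [Real.rpow_natCast] at h1
    have hJ0 : (0 : ℝ) ≤ (J₀ : ℝ) := Nat.cast_nonneg _
    push_cast at h2
    have hL1 : 1 ≤ L := by linarith
    have hlog2 : (Nat.log 2 K : ℝ) ≤ 2 * L := by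
      have h3 : 2 ^ Nat.log 2 K ≤ K := Nat.pow_log_le_self 2 hK0.ne'
      have h4 : (2 : ℝ) ^ Nat.log 2 K ≤ K := by exact_mod_cast h3
      have h5 := Real.log_le_log (by positivity) h4
      rw [Real.log_pow, ← hL] at h5
      have h6 : (1 : ℝ) / 2 < Real.log 2 := by
        have := Real.log_two_gt_d9
        linarith
      have h7 : (0 : ℝ) ≤ (Nat.log 2 K : ℕ) := Nat.cast_nonneg _
      nlinarith
    have hYr : (1 : ℝ) ≤ Y := by exact_mod_cast (by omega : 1 ≤ Y)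
    push_cast
    have h3 : ((Y : ℝ) + 1) * (J₀ + Y * (Nat.log 2 K + 1)) ≤ (Y : ℝ) ^ 2 * (6 * (J₀ + 1) * L) := by
      have h4 : (J₀ : ℝ) + Y * (Nat.log 2 K + 1) ≤ Y * (3 * (J₀ + 1) * L) := by
        have h5 : (J₀ : ℝ) ≤ Y * (J₀ * L) := by
          calc (J₀ : ℝ) = 1 * (J₀ * 1) := by ring
            _ ≤ Y * (J₀ * L) := by
              apply mul_le_mul hYr _ (by positivity) (by positivity)
              exact mul_le_mul_of_nonneg_left hL1 hJ0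
        have h6 : (Y : ℝ) * (Nat.log 2 K + 1) ≤ Y * (3 * L) := by
          apply mul_le_mul_of_nonneg_left _ (by positivity)
          linarith
        have h7 : 0 ≤ (Y : ℝ) * (J₀ * L) := by positivity
        calc (J₀ : ℝ) + Y * (Nat.log 2 K + 1) ≤ Y * (J₀ * L) + Y * (3 * L) := add_le_add h5 h6
          _ ≤ Y * (3 * (J₀ + 1) * L) := by
              have : Y * (3 * (J₀ + 1) * L) = 3 * (Y * (J₀ * L)) + Y * (3 * L) := by ring
              rw [this]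
              linarith
      calc ((Y : ℝ) + 1) * (J₀ + Y * (Nat.log 2 K + 1)) ≤ (2 * Y) * (Y * (3 * (J₀ + 1) * L)) := by
            apply mul_le_mul _ h4 (by positivity) (by positivity)
            linarith
        _ = _ := by ring
    have h5 : 6 * ((J₀ : ℝ) + 1) * L * L ^ A ≤ (K : ℝ) ^ (1 / 3 : ℝ) := by
      refine le_trans ?_ h1
      rw [pow_add]
      calc 6 * ((J₀ : ℝ) + 1) * L * L ^ A ≤ L * L * L ^ A := by
            apply mul_le_mul_of_nonneg_right _ (by positivity)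
            apply mul_le_mul_of_nonneg_right _ (by positivity)
            linarith
        _ = _ := by ring
    calc ((Y : ℝ) + 1) * (J₀ + Y * (Nat.log 2 K + 1)) * L ^ A ≤
          (Y : ℝ) ^ 2 * (6 * (J₀ + 1) * L) * L ^ A := mul_le_mul_of_nonneg_right h3 (by positivity)
      _ = (Y : ℝ) ^ 2 * (6 * (J₀ + 1) * L * L ^ A) := by ring
      _ ≤ ((K : ℝ) ^ (1 / 3 : ℝ)) ^ 2 * (K : ℝ) ^ (1 / 3 : ℝ) := by
          apply mul_le_mul _ h5 (by positivity) (by positivity)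
          exact pow_le_pow_left₀ (by positivity) hY1 2
      _ = ((K : ℝ) ^ (1 / 3 : ℝ)) ^ 3 := by ring
      _ = K := hcube

end Pool.Agent.KS6_33.LE
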