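import Pool.Agent.KS6_33.LE.LF

/-! # The main theorem for Lenstra's problem -/

set_option autoImplicit false

namespace Pool.Agent.KS6_33.LE

open Finset Filter Topology NumberField Polynomial Pool.Agent.R459.Eq Pool.Agent.H730R2.AA Pool.Agent.R318.PR
  Pool.Agent.KS6_33.EX Pool.Agent.KS6_33.SP
open Pool.Agent.W171.LG
open Pool.Agent.W401.Cheb

lemma not_mono (P : ℤ[X]) (z : ℂ) (hz : z ≠ 0) (h0 : aeval z P = 0) (h1 : aeval z (derivative P) ≠ 0) :
    P ≠ 0 ∧ P.eraseLead ≠ 0 := by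
  have hP : P ≠ 0 := by
    rintro rfl
    simp at h1
  refine ⟨hP, fun h => ?_⟩
  have h2 := eraseLead_add_monomial_natDegree_leadingCoeff P
  rw [h, zero_add] at h2
  rw [← h2, aeval_monomial] at h0
  rcases mul_eq_zero.1 h0 with h3 | h3
  · have h4 : P.leadingCoeff = 0 := by
      have h5 : ((P.leadingCoeff : ℤ) : ℂ) = 0 := by simpa using h3
      exact_mod_cast h5
    exact hP (leadingCoeff_eq_zero.1 h4)
  · exact pow_ne_zero _ hz h3

/-- Lenstra's law for the group generated by `W₀` and `n` -/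
def LL (F : IntermediateField ℚ QA) [NumberField F] [IsGalois ℚ F] (C : Set Gal(F/ℚ)) (W0 : Subgroup ℚˣ)
    (k : ℕ) (ε : ℝ) (n : ℤ) (x : ℕ) : Prop :=
  1 < |n| ∧ |(Sc F C (W0 ⊔ Subgroup.zpowers (Uz n)) k x : ℝ) -
    (∑' e : ℕ, tW F C (W0 ⊔ Subgroup.zpowers (Uz n)) k e) * (Nat.primeCounting x : ℝ)| ≤
      ε * (Nat.primeCounting x : ℝ)

/-- **Main theorem** -/
theorem len_exp (a : ℤ) (ha : 2 ≤ |a|) (P : ℤ[X]) (z : ℂ) (hz : z ≠ 0) (h0 : aeval z P = 0)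
    (h1 : aeval z (derivative P) ≠ 0)
    (F : IntermediateField ℚ QA) [NumberField F] [IsGalois ℚ F] (C : Set Gal(F/ℚ)) (W0 : Subgroup ℚˣ) (k : ℕ)
    (hC : ∀ σ ∈ C, ∀ τ : Gal(F/ℚ), τ * σ * τ⁻¹ ∈ C) (hW0 : W0.FG) (hk : k ≠ 0)
    (A : ℕ) (ε κ : ℝ) (hε : 0 < ε) (hκ : 0 < κ) :
    ∃ (B : ℝ) (X₀ : ℕ), 0 < B ∧ 9 ≤ X₀ ∧ ∀ (X K : ℕ) (c : ℤ), X₀ ≤ X → c ≠ 0 →
      (c.natAbs.primeFactors.card : ℝ) ≤ Real.sqrt X → c.natAbs ≤ 2 ^ K → ∀ E : Finset ℕ, E ⊆ range K →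
      (∀ j ∈ E, ∃ x : ℕ, X ≤ x ∧ (x : ℝ) ^ (1 + κ) ≤ K ∧ ¬ LL F C W0 k ε (P.eval (c * a ^ j)) x) →
      (E.card : ℝ) ≤ B * (K / (Real.log X) ^ A) := by
  classical
  obtain ⟨hP, hR⟩ := not_mono P z hz h0 h1
  obtain ⟨M₀, hM₀, _, hW⟩ := weil_ex P z hz h0 h1 1 one_ne_zero
  have hall := all_E a ha P P.natDegree M₀ hW A κ hκ
  have hw : ∀ X : ℕ, 0 ≤ 1 / (Real.log X) ^ A := fun X => by
    have := Real.log_natCast_nonneg X
    positivity
  obtain ⟨zz, B₁, Y₀, hclose⟩ := close2 F C k hW0 (ε / 2) (by positivity)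
  obtain ⟨L, hL⟩ : ∃ L : ℕ, L = zz + 4 * P.natDegree + 2 := ⟨_, rfl⟩
  obtain ⟨s, hs⟩ : ∃ s : Finset (ℕ × ℤ), s = ((range (L + 1)).filter Nat.Prime) ×ˢ
    ((Icc (-(B₁ + 1 : ℤ)) (B₁ + 1)).filter (fun g => g ≠ 0)) := ⟨_, rfl⟩
  have hmem : ∀ (l : ℕ) (g : ℤ), l.Prime → l ≤ L → g ≠ 0 → g.natAbs ≤ B₁ + 1 → (l, g) ∈ s := by
    intro l g h2 h3 h4 h5
    rw [hs, mem_product, mem_filter, mem_filter, mem_range, mem_Icc]
    exact ⟨⟨by omega, h2⟩, by omega, h4⟩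
  have hQ2 := g_fin (Adm := AdmE a P) (R := RE κ) (w := fun X => 1 / (Real.log X) ^ A) s
    (fun i n _ => ∀ y : ℤ, n ≠ i.2 * y ^ i.1) hw (fun i hi => by
      rw [hs, mem_product, mem_filter, mem_filter] at hi
      exact g_cls F hM₀ hall i.1 hi.1.2 i.2 hi.2.2)
  have hQ1 := g_len F C W0 k hM₀ hall hC hW0 hk (ε / 2) (by positivity)
  obtain ⟨C₁, X₁, hC₁, hX₁, hJ⟩ := fewG_or _ _ (fun n x => (n = 0 ∨
      |(Sc F C (W0 ⊔ Subgroup.zpowers (Uz n)) k x : ℝ) -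
      (∑' e : ℕ, aT F C W0 k e) * (Nat.primeCounting x : ℝ)| ≤ ε / 2 * (Nat.primeCounting x : ℝ)) ∧
      ∀ i ∈ s, ∀ y : ℤ, n ≠ i.2 * y ^ i.1) hQ1 hQ2 (fun n x h2 h3 => ⟨h2, h3⟩)
  obtain ⟨J₀, hfew⟩ := few_pow a ha P hP hR
  obtain ⟨Cs, hsize⟩ := size_le a P
  obtain ⟨K₀, hY⟩ := choose_Y A Cs J₀ Y₀
  refine ⟨C₁ + 1, X₁ + K₀ + 9, by linarith, by omega, ?_⟩
  intro X K c hX hc hcX hcK E hEK hbad
  by_cases hE : E = ∅
  · rw [hE, card_empty]
    have h2 : 0 ≤ (Real.log X) ^ A := by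
      have := Real.log_natCast_nonneg X
      positivity
    push_cast
    positivity
  obtain ⟨j₀, hj₀⟩ := Finset.nonempty_iff_ne_empty.2 hE
  have hXK : X ≤ K := by
    obtain ⟨x, hx1, hx2, _⟩ := hbad j₀ hj₀
    have hx : (1 : ℝ) ≤ x := by exact_mod_cast (by omega : 1 ≤ x)
    have h2 : (x : ℝ) ≤ (x : ℝ) ^ (1 + κ) := by
      calc (x : ℝ) = (x : ℝ) ^ (1 : ℝ) := (Real.rpow_one _).symm
        _ ≤ _ := Real.rpow_le_rpow_of_exponent_le hx (by linarith)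
    have h3 : (X : ℝ) ≤ K := by
      calc (X : ℝ) ≤ x := by exact_mod_cast hx1
        _ ≤ _ := h2.trans hx2
    exact_mod_cast h3
  obtain ⟨Y, hY0, hY1, hY2⟩ := hY K (by omega)
  obtain ⟨E₁, hE₁⟩ : ∃ E₁ : Finset ℕ, E₁ = E.filter (fun j => ∃ x : ℕ, X ≤ x ∧ RE κ x K ∧
    ¬ ((P.eval (c * a ^ j) = 0 ∨
      |(Sc F C (W0 ⊔ Subgroup.zpowers (Uz (P.eval (c * a ^ j)))) k x : ℝ) -
      (∑' e : ℕ, aT F C W0 k e) * (Nat.primeCounting x : ℝ)| ≤ ε / 2 * (Nat.primeCounting x : ℝ)) ∧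
      ∀ i ∈ s, ∀ y : ℤ, P.eval (c * a ^ j) ≠ i.2 * y ^ i.1)) := ⟨_, rfl⟩
  obtain ⟨EE, hEE⟩ : ∃ EE : ℕ → Finset ℕ, EE = fun l => if 4 * P.natDegree ≤ l ∧ 0 < l then
    E.filter (fun j => ∃ y : ℤ, P.eval (c * a ^ j) = y ^ l) else ∅ := ⟨_, rfl⟩
  have hcover : E ⊆ E₁ ∪ (range (Y + 1)).biUnion EE := by
    intro j hj
    by_contra hcon
    rw [mem_union, not_or] at hcon
    obtain ⟨hcon1, hcon2⟩ := hcon
    obtain ⟨x, hx1, hx2, hx3⟩ := hbad j hj
    rw [hE₁, mem_filter] at hcon1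
    push Not at hcon1
    have h4 := hcon1 hj x hx1 hx2
    obtain ⟨h5, h6⟩ := h4
    obtain ⟨n, hn⟩ : ∃ n : ℤ, n = P.eval (c * a ^ j) := ⟨_, rfl⟩
    rw [← hn] at h5 h6 hx3
    have hcl : ∀ (l : ℕ) (g : ℤ), l.Prime → l ≤ L → g ≠ 0 → g.natAbs ≤ B₁ + 1 → ∀ y : ℤ, n ≠ g * y ^ l :=
      fun l g h7 h8 h9 h10 y => h6 (l, g) (hmem l g h7 h8 h9 h10) y
    have hn0 : n ≠ 0 := by
      have := hcl 2 1 Nat.prime_two (by omega) one_ne_zero (by simp) 0
      simpa using this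
    have h7 := h5.resolve_left hn0
    have h8 : |(∑' e : ℕ, tW F C (W0 ⊔ Subgroup.zpowers (Uz n)) k e) - ∑' e : ℕ, aT F C W0 k e| ≤ ε / 2 := by
      apply hclose n Y hn0 hY0
      · intro l hl hlz g hg hgB y
        exact hcl l g hl (by omega) hg (by omega) y
      · intro l hl hlY y hy
        by_cases hlL : l ≤ L
        · have := hcl l 1 hl hlL one_ne_zero (by simp) y
          rw [one_mul] at this
          exact this hy
        · apply hcon2
          rw [mem_biUnion]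
          refine ⟨l, mem_range.2 (by omega), ?_⟩
          rw [hEE]
          beta_reduce
          rw [if_pos ⟨by omega, hl.pos⟩, mem_filter]
          exact ⟨hj, y, by rw [← hn]; exact hy⟩
      · rw [hn]
        exact lt_of_lt_of_le (hsize c j K hcK (mem_range.1 (hEK hj))) (Nat.pow_le_pow_right (by norm_num) hY1)
    apply hx3
    have hn1 : 1 < |n| := by
      have e1 := hcl 2 1 Nat.prime_two (by omega) one_ne_zero (by simp) 1
      have e2 := hcl 2 (-1) Nat.prime_two (by omega) (by norm_num) (by simp) 1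
      rw [one_pow, mul_one] at e1 e2
      rcases abs_cases n with h | h <;> omega
    refine ⟨hn1, ?_⟩
    have hπ : (0 : ℝ) ≤ (Nat.primeCounting x : ℝ) := Nat.cast_nonneg _
    have h9 : |((∑' e : ℕ, tW F C (W0 ⊔ Subgroup.zpowers (Uz n)) k e) - ∑' e : ℕ, aT F C W0 k e) *
        (Nat.primeCounting x : ℝ)| ≤ ε / 2 * (Nat.primeCounting x : ℝ) := by
      rw [abs_mul, abs_of_nonneg hπ]
      exact mul_le_mul_of_nonneg_right h8 hπ
    rw [abs_le] at h7 h9 ⊢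
    constructor
    · linarith [h7.1, h9.2]
    · linarith [h7.2, h9.1]
  have hcard1 : (E₁.card : ℝ) ≤ C₁ * (K * (1 / (Real.log X) ^ A)) := by
    refine hJ X K (fun j : ℕ => P.eval (c * a ^ j)) (by omega) ⟨c, hc, hcX, rfl⟩ E₁ ?_ ?_
    · rw [hE₁]
      exact (filter_subset _ _).trans hEK
    · intro j hj
      rw [hE₁, mem_filter] at hj
      exact hj.2
  have hcard2 : ((range (Y + 1)).biUnion EE).card ≤ (Y + 1) * (J₀ + Y * (Nat.log 2 K + 1)) := by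
    refine card_biUnion_le.trans ?_
    have h2 : ∀ l ∈ range (Y + 1), (EE l).card ≤ J₀ + Y * (Nat.log 2 K + 1) := by
      intro l hl
      rw [mem_range] at hl
      rw [hEE]
      beta_reduce
      split_ifs with h3
      · have h4 := hfew c l K hc h3.1 h3.2 (E.filter (fun j => ∃ y : ℤ, P.eval (c * a ^ j) = y ^ l))
          ((filter_subset _ _).trans hEK) (fun j hj => (mem_filter.1 hj).2)
        have h5 : l * (Nat.log 2 K + 1) ≤ Y * (Nat.log 2 K + 1) := Nat.mul_le_mul_right _ (by omega)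
        omega
      · rw [card_empty]
        omega
    have h3 := sum_le_card_nsmul _ _ _ h2
    rw [card_range, smul_eq_mul] at h3
    exact h3
  have hlX0 : 0 < Real.log X := Real.log_pos (by exact_mod_cast (by omega : 1 < X))
  have hlXK : Real.log X ≤ Real.log K :=
    Real.log_le_log (by exact_mod_cast (by omega : 0 < X)) (by exact_mod_cast hXK)
  have hcard3 : (((range (Y + 1)).biUnion EE).card : ℝ) ≤ K / (Real.log X) ^ A := by
    rw [le_div_iff₀ (by positivity)]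
    refine le_trans ?_ hY2
    apply mul_le_mul
    · exact_mod_cast hcard2
    · exact pow_le_pow_left₀ hlX0.le hlXK A
    · positivity
    · exact Nat.cast_nonneg _
  have hfinal : (E.card : ℝ) ≤ E₁.card + ((range (Y + 1)).biUnion EE).card := by
    exact_mod_cast (card_le_card hcover).trans (card_union_le _ _)
  calc (E.card : ℝ) ≤ E₁.card + ((range (Y + 1)).biUnion EE).card := hfinal
    _ ≤ C₁ * (K * (1 / (Real.log X) ^ A)) + K / (Real.log X) ^ A := add_le_add hcard1 hcard3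
    _ = (C₁ + 1) * (K / (Real.log X) ^ A) := by ring

/-- exceptions among the primes -/
lemma primes_of_few2 (κ : ℝ) (hκ : 0 < κ) (ω : ℝ) (K₁ : ℕ) (b : ℕ → ℕ)
    (h : ∀ A : ℕ, ∃ (C : ℝ) (X₀ : ℕ), 0 < C ∧ ∀ X K : ℕ, X₀ ≤ X → K₁ ≤ K → ω ≤ Real.sqrt X →
      (∀ x : ℕ, Real.exp ((Real.log K) ^ κ) ≤ x → X ≤ x) → (b K : ℝ) ≤ C * (K / (Real.log X) ^ A)) :
    Tendsto (fun K : ℕ => (b K : ℝ) / Nat.primeCounting K) atTop (𝓝 0) := by
  obtain ⟨A, hA⟩ := exists_nat_ge (2 / κ)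
  obtain ⟨C, X₀, hC, h1⟩ := h A
  have hbound : ∀ᶠ K : ℕ in atTop, (b K : ℝ) / Nat.primeCounting K ≤ 4 * C * (1 / Real.log K) := by
    have hlog : Tendsto (fun K : ℕ => (Real.log K) ^ κ) atTop atTop :=
      (tendsto_rpow_atTop hκ).comp log_atTop
    have hexp : Tendsto (fun K : ℕ => Real.exp ((Real.log K) ^ κ)) atTop atTop :=
      Real.tendsto_exp_atTop.comp hlog
    filter_upwards [hexp.eventually_ge_atTop (X₀ : ℝ), hexp.eventually_ge_atTop (ω ^ 2),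
      log_atTop.eventually_ge_atTop (1 : ℝ), eventually_ge_atTop (max 4 K₁)] with K hK1 hK2 hK3 hK4
    obtain ⟨X, hX⟩ : ∃ X : ℕ, X = ⌈Real.exp ((Real.log K) ^ κ)⌉₊ := ⟨_, rfl⟩
    have hXge : Real.exp ((Real.log K) ^ κ) ≤ X := by rw [hX]; exact Nat.le_ceil _
    have hXX : X₀ ≤ X := by
      have : (X₀ : ℝ) ≤ X := hK1.trans hXge
      exact_mod_cast this
    have hcX : ω ≤ Real.sqrt X := Real.le_sqrt_of_sq_le (hK2.trans hXge)
    have hK44 : 4 ≤ K := (le_max_left _ _).trans hK4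
    have h2 := h1 X K hXX ((le_max_right _ _).trans hK4) hcX (fun x hx => by
      rw [hX]
      exact Nat.ceil_le.2 hx)
    obtain ⟨hpi, _, hpi2⟩ := pi_lower' K hK44
    have hL0 : 0 < Real.log K := by linarith
    have hK0 : (0 : ℝ) < K := by exact_mod_cast (by omega : 0 < K)
    have hlX : (Real.log K) ^ κ ≤ Real.log X := by
      rw [Real.le_log_iff_exp_le (lt_of_lt_of_le (Real.exp_pos _) hXge)]
      exact hXge
    have hlXA : (Real.log K) ^ 2 ≤ (Real.log X) ^ A := by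
      calc (Real.log K) ^ 2 = (Real.log K) ^ ((2 : ℕ) : ℝ) := (Real.rpow_natCast _ _).symm
        _ ≤ (Real.log K) ^ (κ * A) := by
            apply Real.rpow_le_rpow_of_exponent_le hK3
            rw [div_le_iff₀ hκ] at hA
            push_cast
            linarith
        _ = ((Real.log K) ^ κ) ^ A := by rw [Real.rpow_mul hL0.le, Real.rpow_natCast]
        _ ≤ _ := pow_le_pow_left₀ (by positivity) hlX A
    have h3 : (b K : ℝ) ≤ C * (K / (Real.log K) ^ 2) := by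
      refine h2.trans ?_
      apply mul_le_mul_of_nonneg_left _ hC.le
      exact div_le_div_of_nonneg_left hK0.le (by positivity) hlXA
    calc (b K : ℝ) / Nat.primeCounting K = (b K : ℝ) * (1 / Nat.primeCounting K) := by ring
      _ ≤ (C * (K / (Real.log K) ^ 2)) * (4 * Real.log K / K) :=
          mul_le_mul h3 hpi2 (by positivity) (by positivity)
      _ = _ := by field_simp
  have hlim : Tendsto (fun K : ℕ => 4 * C * (1 / Real.log K)) atTop (𝓝 0) := by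
    have h2 : Tendsto (fun K : ℕ => 1 / Real.log K) atTop (𝓝 0) := by
      simp only [one_div]
      exact tendsto_inv_atTop_zero.comp log_atTop
    have := h2.const_mul (4 * C)
    rwa [mul_zero] at this
  exact squeeze_zero' (Eventually.of_forall fun K => by positivity) hbound hlim

end Pool.Agent.KS6_33.LE
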